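import Pool.Agent.DWG.Defs

/-!
# The action on alternating forms
-/

set_option autoImplicit false

noncomputable section

namespace Pool.Agent.DWG

open Pool.Agent.ZCyc Pool.Agent.GT Pool.Agent.DWK
open scoped Classical LinearAlgebra.Projectivization

variable {k : Type} [Field k]

/-- The combination `γ` of automorphisms of `X ^ m` kills all holomorphic forms on `X ^ m`. The
algebra of holomorphic forms is the exterior algebra generated by the holomorphic `3`-forms `ω_b` of the
factors `X`, and the pull-back of `ω_b` by `g` is `LM g (ω_b)`. So the condition says that `γ` is zero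
on all exterior powers of the space with the basis `ω_b`, or on all alternating forms `f` on it. -/
def KillsForms' {m : ℕ} (γ : Aut k m →₀ ℚ) : Prop :=
  ∀ (r : ℕ) (f : (Fin m → ℚ) [⋀^Fin r]→ₗ[ℚ] ℚ) (v : Fin r → Fin m → ℚ),
    (γ.sum fun g c => c * f fun i => LM g (v i)) = 0

theorem KillsForms'.killsForms {m : ℕ} {γ : Aut k m →₀ ℚ} (h : KillsForms' γ) : KillsForms γ := by
  unfold KillsForms
  apply LinearMap.ext_on_range (v := fun x : Σ n, (Fin n → Fin m → ℚ) =>
    ExteriorAlgebra.ιMulti ℚ x.1 x.2) (ExteriorAlgebra.ιMulti_span ℚ (Fin m → ℚ))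
  rintro ⟨r, v⟩
  rw [Finsupp.sum, LinearMap.sum_apply, LinearMap.zero_apply]
  simp only [LinearMap.smul_apply, AlgHom.toLinearMap_apply, ExteriorAlgebra.map_apply_ιMulti]
  rw [← Module.forall_dual_apply_eq_zero_iff ℚ]
  intro φ
  rw [map_sum]
  have h1 := h r (φ.compAlternatingMap (ExteriorAlgebra.ιMulti ℚ r)) v
  rw [Finsupp.sum] at h1
  rw [← h1]
  refine Finset.sum_congr rfl fun g _ => ?_
  rw [map_smul, smul_eq_mul]
  rfl

end Pool.Agent.DWG
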