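import Pool.Agent.DWG.Kill
import Pool.Agent.DWG.Alts
import Pool.Agent.DWK.Mono

/-!
# The action of automorphisms on zero-cycles
-/

set_option autoImplicit false

noncomputable section

namespace Pool.Agent.DWG

open Pool.Agent.ZCyc Pool.Agent.GT Pool.Agent.DWK
open scoped Classical LinearAlgebra.Projectivization

variable {k : Type} [Field k] {t : k}

theorem aeval_actP (g : Mon k) {p : ℙ k (Fin 5 → k)}
    (hp : MvPolynomial.aeval p.rep (dwork t : MvPolynomial (Fin 5) k) = 0) :
    MvPolynomial.aeval (actP g p).rep (dwork t : MvPolynomial (Fin 5) k) = 0 := by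
  have h1 : On (k := k) (K := k) t p.rep := by
    refine ⟨p.rep_nonzero, ?_⟩
    unfold dwork at hp
    rw [map_sub, map_sum, map_mul, map_prod, MvPolynomial.aeval_C] at hp
    simp only [map_pow, MvPolynomial.aeval_X] at hp
    exact sub_eq_zero.1 hp
  have h2 : On (k := k) (K := k) t (g.ap p.rep) := on_ap g h1
  obtain ⟨a, h3⟩ := Projectivization.exists_smul_eq_mk_rep k _ h2.1
  have h4 : (actP g p).rep = fun i => (a : k) * g.ap p.rep i := by
    refine h3.symm.trans ?_
    rfl
  have h5 : On (k := k) (K := k) t (actP g p).rep := by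
    refine ⟨(actP g p).rep_nonzero, ?_⟩
    rw [h4, Finset.prod_mul_distrib, Finset.prod_const, Finset.card_univ, Fintype.card_fin]
    simp only [mul_pow]
    rw [← Finset.mul_sum, h2.2]
    ring
  exact h5.aeval _ rfl

/-- the image of a point of `X ^ m` under an automorphism -/
def actX {m : ℕ} (g : Aut k m) (p : Fin m → Pt (m := 4) {dwork t} k) :
    Fin m → Pt (m := 4) {dwork t} k := fun b =>
  ⟨actP (g.2 b) (p (g.1 b)).1, by
    rintro f rfl
    exact aeval_actP (g.2 b) ((p (g.1 b)).2 _ rfl)⟩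

/-- the push-forward of the zero-cycle `z` on `X ^ m` by the combination `γ` of automorphisms -/
def push {m : ℕ} (γ : Aut k m →₀ ℚ) (z : (Fin m → Pt (m := 4) {dwork t} k) →₀ ℚ) :
    (Fin m → Pt (m := 4) {dwork t} k) →₀ ℚ :=
  γ.sum fun g c => c • z.mapDomain (actX g)

theorem push_mem [IsAlgClosed k] [CharZero k] {m : ℕ} {γ : Aut k m →₀ ℚ} (hγ : KillsForms' γ)
    (z : (Fin m → Pt (m := 4) {dwork t} k) →₀ ℚ) : push γ z ∈ Rat (m := 4) {dwork t} (Fin m) := by
  have h1 := hγ.killsForms
  unfold KillsForms at h1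
  rw [Finsupp.sum, ← Finset.sum_coe_sort] at h1
  have h2 : ∀ p : Fin m → Pt (m := 4) {dwork t} k,
      ∑ g : γ.support, Finsupp.single (actX g.1 p) (γ g.1) ∈ Rat (m := 4) {dwork t} (Fin m) :=
    fun p => kill_rat (fun g : γ.support => g.1) (fun g => γ g.1) h1 p _ fun i b => rfl
  have h3 : push γ z = z.sum fun p c => c •
      ∑ g : γ.support, Finsupp.single (actX g.1 p) (γ g.1) := by
    unfold push
    simp only [Finsupp.sum, Finsupp.mapDomain, Finset.smul_sum]
    rw [Finset.sum_comm]
    refine Finset.sum_congr rfl fun p _ => ?_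
    rw [← Finset.sum_coe_sort γ.support]
    refine Finset.sum_congr rfl fun g _ => ?_
    rw [Finsupp.smul_single, Finsupp.smul_single, smul_eq_mul, smul_eq_mul, mul_comm]
  rw [h3]
  exact Submodule.sum_mem _ fun p _ => Submodule.smul_mem _ _ (h2 p)

end Pool.Agent.DWG
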