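import Pool.Agent.WFC.GOrd
import Pool.Agent.DWK.Defs

/-!
# Conjugate places and multiplicities
-/

set_option autoImplicit false

noncomputable section

namespace Pool.Agent.DWG

open Pool.Agent.ZCyc Pool.Agent.GT Pool.Agent.DWK
open Pool.Agent.VFP (Om tt)
open scoped Classical LinearAlgebra.Projectivization

open Pool.Agent.Dess Pool.Agent.TInc

variable {k : Type} [Field k] [IsAlgClosed k] [CharZero k]

open Pool.Agent.WFC in
section

variable (F : IntermediateField (RatFunc k) (Om k))

omit [IsAlgClosed k] [CharZero k] in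
private theorem alg_poly (p : Polynomial k) :
    algebraMap (RatFunc k) F (algebraMap (Polynomial k) (RatFunc k) p) =
      Polynomial.aeval (algebraMap (RatFunc k) F RatFunc.X) p := by
  rw [Polynomial.aeval_algebraMap_apply]
  congr 1
  have h1 : (Polynomial.aeval (RatFunc.X : RatFunc k)) = IsScalarTower.toAlgHom k (Polynomial k)
      (RatFunc k) := by
    apply Polynomial.algHom_ext
    rw [Polynomial.aeval_X]
    exact RatFunc.algebraMap_X.symm
  rw [h1]
  rfl

omit [IsAlgClosed k] [CharZero k] in
private theorem alg_rat (r : RatFunc k) : algebraMap (RatFunc k) F r =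
    Polynomial.aeval (algebraMap (RatFunc k) F RatFunc.X) r.num /
      Polynomial.aeval (algebraMap (RatFunc k) F RatFunc.X) r.denom := by
  rw [← alg_poly, ← alg_poly, ← map_div₀, RatFunc.num_div_denom]

omit [IsAlgClosed k] [CharZero k] in
private theorem transc_X : Transcendental k (algebraMap (RatFunc k) F RatFunc.X) := by
  rw [transcendental_algebraMap_iff (algebraMap (RatFunc k) F).injective]
  exact RatFunc.transcendental_X

omit [IsAlgClosed k] [CharZero k] in
private theorem fix_rat {g : F ≃ₐ[k] F}
    (hg : g (algebraMap (RatFunc k) F RatFunc.X) = algebraMap (RatFunc k) F RatFunc.X)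
    (r : RatFunc k) : g (algebraMap (RatFunc k) F r) = algebraMap (RatFunc k) F r := by
  have h1 : ∀ p : Polynomial k, g (Polynomial.aeval (algebraMap (RatFunc k) F RatFunc.X) p) =
      Polynomial.aeval (algebraMap (RatFunc k) F RatFunc.X) p := by
    intro p
    have h2 := Polynomial.aeval_algHom_apply (g : F →ₐ[k] F)
      (algebraMap (RatFunc k) F RatFunc.X) p
    have h3 : (g : F →ₐ[k] F) (algebraMap (RatFunc k) F RatFunc.X) =
        algebraMap (RatFunc k) F RatFunc.X := hg
    rw [h3] at h2
    exact h2.symm
  rw [alg_rat, map_div₀, h1, h1]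

omit [IsAlgClosed k] [CharZero k] in
private theorem curveF [FiniteDimensional (RatFunc k) F] : IsCurve k F := by
  refine ⟨algebraMap (RatFunc k) F RatFunc.X, transc_X F, ?_⟩
  set t := algebraMap (RatFunc k) F RatFunc.X with ht
  have hmem : ∀ r : RatFunc k, algebraMap (RatFunc k) F r ∈ IntermediateField.adjoin k {t} := by
    intro r
    rw [alg_rat]
    refine div_mem ?_ ?_
    · exact (IntermediateField.algebra_adjoin_le_adjoin k {t})
        (Polynomial.aeval_mem_adjoin_singleton k t)
    · exact (IntermediateField.algebra_adjoin_le_adjoin k {t})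
        (Polynomial.aeval_mem_adjoin_singleton k t)
  let f : RatFunc k →+* IntermediateField.adjoin k {t} :=
    (algebraMap (RatFunc k) F).codRestrict (IntermediateField.adjoin k {t}).toSubfield.toSubring
      hmem
  let _ : Algebra (RatFunc k) (IntermediateField.adjoin k {t}) := f.toAlgebra
  have : IsScalarTower (RatFunc k) (IntermediateField.adjoin k {t}) F :=
    IsScalarTower.of_algebraMap_eq fun r => rfl
  exact Module.Finite.of_restrictScalars_finite (RatFunc k) (IntermediateField.adjoin k {t}) F

/-- the Galois group as a group of automorphisms over `k` -/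
private def gG : Subgroup (F ≃ₐ[k] F) :=
  (AlgEquiv.restrictScalarsHom k : (F ≃ₐ[RatFunc k] F) →* (F ≃ₐ[k] F)).range

private instance [FiniteDimensional (RatFunc k) F] : Finite (gG F) := by
  unfold gG
  infer_instance

/-- the automorphisms which fix the image of `K` -/
private def gH {K : Type} [Field K] [Algebra k K] (j : K →ₐ[k] F) : Subgroup (F ≃ₐ[k] F) where
  carrier := {g | ∀ x, g (j x) = j x}
  mul_mem' := by
    intro a b ha hb x
    change a (b (j x)) = j x
    rw [hb x, ha x]
  one_mem' := fun x => rfl
  inv_mem' := by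
    intro a ha x
    change a.symm (j x) = j x
    rw [AlgEquiv.symm_apply_eq, ha x]

omit [IsAlgClosed k] [CharZero k] in
private theorem mem_gG {g : F ≃ₐ[k] F}
    (hg : g (algebraMap (RatFunc k) F RatFunc.X) = algebraMap (RatFunc k) F RatFunc.X) :
    g ∈ gG F := by
  refine ⟨AlgEquiv.ofRingEquiv (f := g.toRingEquiv) (fun r => fix_rat F hg r), ?_⟩
  ext x
  rfl

variable {K : Type} [Field K] [Algebra k K] (j : K →ₐ[k] F) {g : K}
  (hj : j g = algebraMap (RatFunc k) F RatFunc.X)

include hj

omit [IsAlgClosed k] [CharZero k] in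
private theorem gH_le : gH F j ≤ gG F := by
  intro a ha
  apply mem_gG
  rw [← hj]
  exact ha g

omit [IsAlgClosed k] [CharZero k] in
private theorem gH_finite [FiniteDimensional (RatFunc k) F] : Finite (gH F j) :=
  Finite.of_injective (Subgroup.inclusion (gH_le F j hj)) (Subgroup.inclusion_injective _)

omit [IsAlgClosed k] [CharZero k] in
private theorem rat_mem (r : RatFunc k) : ∃ x, j x = algebraMap (RatFunc k) F r := by
  refine ⟨Polynomial.aeval g r.num / Polynomial.aeval g r.denom, ?_⟩
  rw [map_div₀, alg_rat, ← hj, Polynomial.aeval_algHom_apply, Polynomial.aeval_algHom_apply]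

omit [IsAlgClosed k] [CharZero k] in
private theorem fixH [FiniteDimensional (RatFunc k) F] [IsGalois (RatFunc k) F] {x : F}
    (hx : ∀ a ∈ gH F j, a x = x) : ∃ y, j y = x := by
  let M : IntermediateField (RatFunc k) F :=
    { (j.fieldRange).toSubfield with
      algebraMap_mem' := by
        intro r
        obtain ⟨y, hy⟩ := rat_mem F j hj r
        exact ⟨y, hy⟩ }
  have h1 : x ∈ IntermediateField.fixedField (IntermediateField.fixingSubgroup M) := by
    rw [IntermediateField.mem_fixedField_iff]
    intro σ hσ
    rw [IntermediateField.mem_fixingSubgroup_iff] at hσ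
    exact hx (σ.restrictScalars k) (fun y => hσ (j y) ⟨y, rfl⟩)
  rw [IsGalois.fixedField_fixingSubgroup] at h1
  exact h1

end

open Pool.Agent.WFC in
section

variable (F : IntermediateField (RatFunc k) (Om k))

omit [IsAlgClosed k] [CharZero k] in
private theorem fixG [FiniteDimensional (RatFunc k) F] [IsGalois (RatFunc k) F] {x : F}
    (hx : ∀ a ∈ gG F, a x = x) : ∃ r, algebraMap (RatFunc k) F r = x := by
  have h1 : x ∈ (⊥ : IntermediateField (RatFunc k) F) := by
    rw [IsGalois.mem_bot_iff_fixed]
    intro f
    exact hx (f.restrictScalars k) ⟨f, rfl⟩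
  exact IntermediateField.mem_bot.1 h1

omit [IsAlgClosed k] [CharZero k] in
private theorem at_of_van {w : Place k F} {a : k}
    (hw : w.Vanishes (algebraMap (RatFunc k) F (RatFunc.X - RatFunc.C a))) :
    w.At (algebraMap (RatFunc k) F RatFunc.X) a := by
  have h1 : algebraMap (RatFunc k) F (RatFunc.X - RatFunc.C a) =
      algebraMap (RatFunc k) F RatFunc.X - algebraMap k F a := by
    rw [map_sub]
    rfl
  rw [h1] at hw
  exact hw

omit [IsAlgClosed k] [CharZero k] in
private theorem aeval_ne {p : Polynomial k} (hp : p ≠ 0) :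
    Polynomial.aeval (algebraMap (RatFunc k) F RatFunc.X) p ≠ 0 := fun h =>
  hp ((transcendental_iff.1 (transc_X F)) p h)

omit [IsAlgClosed k] [CharZero k] in
private theorem rat_mem_iff {w : Place k F} {a : k}
    (hw : w.At (algebraMap (RatFunc k) F RatFunc.X) a) (r : RatFunc k) :
    algebraMap (RatFunc k) F r ∈ w.ring ↔ r.denom.eval a ≠ 0 := by
  have h1 := hw.aeval r.num
  have h2 := hw.aeval r.denom
  constructor
  · intro h hd
    obtain ⟨u, v, huv⟩ := RatFunc.isCoprime_num_denom r
    have h3 : r.num.eval a ≠ 0 := by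
      intro h0
      have h4 := congrArg (Polynomial.eval a) huv
      rw [Polynomial.eval_add, Polynomial.eval_mul, Polynomial.eval_mul, h0, hd,
        Polynomial.eval_one, mul_zero, mul_zero, add_zero] at h4
      exact zero_ne_one h4
    rw [hd] at h2
    have h5 := h2.div h1 h3
    rw [zero_div, Place.at_zero_iff, Place.vanishes_iff_or] at h5
    rcases h5 with h5 | h5
    · rw [div_eq_zero_iff] at h5
      rcases h5 with h5 | h5
      · exact aeval_ne F (RatFunc.denom_ne_zero r) h5
      · rw [h5] at h1
        exact h3 ((Place.at_zero_iff.2 (Place.vanishes_zero w)).unique h1).symm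
    · rw [inv_div, ← alg_rat] at h5
      exact h5 h
  · intro h
    rw [alg_rat]
    exact (h1.div h2 h).mem

private theorem belowG [FiniteDimensional (RatFunc k) F] [IsGalois (RatFunc k) F]
    {w w' : Place k F} {a : k}
    (hw : w.At (algebraMap (RatFunc k) F RatFunc.X) a)
    (hw' : w'.At (algebraMap (RatFunc k) F RatFunc.X) a) :
    below (gG F) w = below (gG F) w' := by
  apply Place.ext
  ext f
  rw [mem_below, mem_below]
  obtain ⟨r, hr⟩ := fixG F (x := (f : F)) (fun b hb => (mem_fix_iff (gG F) (f : F)).1 f.2 ⟨b, hb⟩)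
  rw [← hr, rat_mem_iff F hw, rat_mem_iff F hw']

omit [IsAlgClosed k] [CharZero k] in
private theorem ratG [FiniteDimensional (RatFunc k) F] (r : RatFunc k) :
    algebraMap (RatFunc k) F r ∈ IntermediateField.fixedField (gG F) := by
  rw [mem_fix_iff]
  rintro ⟨_, f, rfl⟩
  exact f.commutes r

private theorem unifG [FiniteDimensional (RatFunc k) F] [IsGalois (RatFunc k) F]
    {w : Place k F} {a : k} (hw : w.At (algebraMap (RatFunc k) F RatFunc.X) a) :
    Dess.IsUnif (below (gG F) w)
      (⟨algebraMap (RatFunc k) F (RatFunc.X - RatFunc.C a), ratG F _⟩ :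
        IntermediateField.fixedField (gG F)) := by
  have hxa : algebraMap (RatFunc k) F (RatFunc.X - RatFunc.C a) =
      Polynomial.aeval (algebraMap (RatFunc k) F RatFunc.X) (Polynomial.X - Polynomial.C a) := by
    rw [← alg_poly, map_sub (algebraMap (Polynomial k) (RatFunc k)), RatFunc.algebraMap_X,
      RatFunc.algebraMap_C]
  have hx0 : algebraMap (RatFunc k) F (RatFunc.X - RatFunc.C a) ≠ 0 := by
    rw [hxa]
    exact aeval_ne F (Polynomial.X_sub_C_ne_zero a)
  refine ⟨?_, ?_, ?_⟩
  · intro h
    exact hx0 (congrArg Subtype.val h)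
  · rw [← Place.at_zero_iff, at_below]
    rw [Place.at_zero_iff]
    have h1 : algebraMap (RatFunc k) F (RatFunc.X - RatFunc.C a) =
        algebraMap (RatFunc k) F RatFunc.X - algebraMap k F a := by
      rw [map_sub]
      rfl
    change w.Vanishes (algebraMap (RatFunc k) F (RatFunc.X - RatFunc.C a))
    rw [h1]
    exact hw
  · intro f hf
    obtain ⟨r, hr⟩ := fixG F (x := (f : F))
      (fun b hb => (mem_fix_iff (gG F) (f : F)).1 f.2 ⟨b, hb⟩)
    rw [← Place.at_zero_iff, at_below, ← hr] at hf
    have hd : r.denom.eval a ≠ 0 := (rat_mem_iff F hw r).1 hf.mem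
    have h1 := (hw.aeval r.num).div (hw.aeval r.denom) hd
    rw [← alg_rat] at h1
    have h2 := hf.unique h1
    have h3 : r.num.eval a = 0 := by
      rcases div_eq_zero_iff.1 h2.symm with h3 | h3
      · exact h3
      · exact absurd h3 hd
    obtain ⟨s, hs⟩ := Polynomial.dvd_iff_isRoot.2 h3
    rw [mem_below]
    change (f : F) / algebraMap (RatFunc k) F (RatFunc.X - RatFunc.C a) ∈ w.ring
    have h4 : (f : F) / algebraMap (RatFunc k) F (RatFunc.X - RatFunc.C a) =
        Polynomial.aeval (algebraMap (RatFunc k) F RatFunc.X) s /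
          Polynomial.aeval (algebraMap (RatFunc k) F RatFunc.X) r.denom := by
      rw [← hr, alg_rat, hs, map_mul, ← hxa, mul_div_assoc, mul_div_cancel_left₀ _ hx0]
    rw [h4]
    exact ((hw.aeval s).div (hw.aeval r.denom) hd).mem

private theorem ord_equiv {K L : Type} [Field K] [Algebra k K] [Field L] [Algebra k L]
    (hK : IsCurve k K) (hL : IsCurve k L) (e : K ≃ₐ[k] L) (v : Place k K) (f : K) :
    ord (v.map e) (e f) = ord v f := by
  by_cases hf : f = 0
  · rw [hf, map_zero, TInc.ord_zero, TInc.ord_zero]
  · apply TInc.ord_eq hL ((map_ne_zero e).2 hf)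
    obtain ⟨π, ⟨p1, p2, p3⟩, h2, h3⟩ := TInc.ord_hasOrd hK v hf
    have hm : ∀ x : K, e x ∈ (v.map e).ring ↔ x ∈ v.ring := fun x => by
      rw [Place.mem_map, AlgEquiv.symm_apply_apply]
    refine ⟨e π, ⟨(map_ne_zero e).2 p1, ?_, fun x hx => ?_⟩, ?_, ?_⟩
    · rw [Place.vanishes_map, AlgEquiv.symm_apply_apply]
      exact p2
    · rw [Place.vanishes_map] at hx
      have h4 := p3 _ hx
      rw [Place.mem_map, map_div₀, AlgEquiv.symm_apply_apply]
      exact h4
    · rw [← map_zpow₀, ← map_div₀, hm]
      exact h2
    · rw [← map_zpow₀, ← map_div₀, ← map_inv₀, hm]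
      exact h3

omit [IsAlgClosed k] [CharZero k] in
private theorem map_inv_mul {L : Type} [Field L] [Algebra k L] {G : Subgroup (L ≃ₐ[k] L)}
    {w : Place k L} {a b : G} (h : w.map a.1 = w.map b.1) : w.map (a⁻¹ * b).1 = w := by
  have h1 : w.map (a⁻¹ * b).1 = (w.map b.1).map (a⁻¹).1 := (pmap_mul w (a⁻¹).1 b.1).symm
  rw [h1, ← h, pmap_mul]
  change w.map ((a⁻¹ * a : G)).1 = w
  rw [inv_mul_cancel]
  exact pmap_one w

/-- the number of the elements of `G` which map `w` into a set of places -/
private theorem card_fib {L : Type} [Field L] [Algebra k L] (G : Subgroup (L ≃ₐ[k] L)) [Finite G]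
    (P : Place k L → Prop) (w : Place k L) (hP : ∀ c, P c → ∃ a : G, w.map a.1 = c) :
    Nat.card {a : G // P (w.map a.1)} = Nat.card {c // P c} * stb G w := by
  unfold stb
  rw [← Nat.card_prod]
  choose s hs using fun c : {c // P c} => hP c.1 c.2
  refine Nat.card_congr
    { toFun := fun a => (⟨w.map a.1.1, a.2⟩, ⟨(s ⟨w.map a.1.1, a.2⟩)⁻¹ * a.1, ?_⟩)
      invFun := fun x => ⟨s x.1 * x.2.1, ?_⟩
      left_inv := fun a => ?_
      right_inv := fun x => ?_ }
  · exact map_inv_mul (hs ⟨w.map a.1.1, a.2⟩)
  · have h1 : w.map ((s x.1) * x.2.1).1 = x.1.1 := by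
      change w.map ((s x.1).1 * x.2.1.1) = x.1.1
      rw [← pmap_mul, x.2.2, hs]
    rw [h1]
    exact x.1.2
  · apply Subtype.ext
    change s ⟨w.map a.1.1, a.2⟩ * ((s ⟨w.map a.1.1, a.2⟩)⁻¹ * a.1) = a.1
    group
  · have h1 : w.map ((s x.1) * x.2.1).1 = x.1.1 := by
      change w.map ((s x.1).1 * x.2.1.1) = x.1.1
      rw [← pmap_mul, x.2.2, hs]
    have h2 : (⟨w.map ((s x.1) * x.2.1).1, by rw [h1]; exact x.1.2⟩ : {c // P c}) = x.1 :=
      Subtype.ext h1
    refine Prod.ext h2 (Subtype.ext ?_)
    change (s ⟨w.map ((s x.1) * x.2.1).1, _⟩)⁻¹ * (s x.1 * x.2.1) = x.2.1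
    rw [h2]
    group

end

/-- `F` is a finite Galois extension of `k(X)`, `K` a subfield of `F` which contains `X = j g`, `w` a place
of `F` above `X = a`. The number of the elements `τ` of the Galois group `G` such that the place `τ w`
lies above the place `v` of `K` is `|H| max(0, ord_v (g - a))`, where `H` is the Galois group of `F` over
`K` (the subgroup of the elements of `G` which fix `j K`).
Proof. `F` is the function field of a curve. If `g - a` does not vanish at `v` then there is no such
`τ` (the function `j (g - a) = X - a` vanishes at all `τ w`), and `ord_v (g - a) ≤ 0`. Suppose that it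
vanishes at `v`. `G` and `H` are finite groups of automorphisms of `F` over `k`; their fixed fields
are `k(X)` and `j K` (Galois theory; identify `K` with the fixed field of `H`). There is a place `w₀` of
`F` above `v` (`WFC.exists_above_fix`), and by `WFC.exists_map_eq` for `G` there is `τ₀` in `G`
with `τ₀ w = w₀` (both are above `X = a`: a place of `k(X)` at which `X - a` vanishes is unique). The
`τ` in question are the `τ` for which `τ w` lies in the orbit of `w₀` under `H`, and for each place in
this orbit there are `|G_w|` such `τ`, so that their number is `|G_w| |H| / |H_w₀|`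
(`WFC.card_above`, `WFC.stb`). By `WFC.ord_below` for `G` and `H` we have
`ord_w₀ (X - a) = |G_w|` (`X - a` has order one at the place of `k(X)`) and
`ord_w₀ (X - a) = |H_w₀| ord_v (g - a)`. -/
theorem count {K : Type} [Field K] [Algebra k K] (hK : IsCurve k K) {g : K}
    (F : IntermediateField (RatFunc k) (Om k)) [FiniteDimensional (RatFunc k) F]
    [IsGalois (RatFunc k) F] (j : K →ₐ[k] F) (hj : j g = algebraMap (RatFunc k) F RatFunc.X) :
    ∃ N : ℕ, 0 < N ∧ ∀ (a : k) (w : Place k F),
      w.Vanishes (algebraMap (RatFunc k) F (RatFunc.X - RatFunc.C a)) → ∀ v : Place k K,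
        (Nat.card {τ : F ≃ₐ[RatFunc k] F //
          (w.map (τ.restrictScalars k)).ring.comap (j : K →+* F) = v.ring} : ℤ) =
        N * max 0 (ord v (g - algebraMap k K a)) := by
  have hF : IsCurve k F := curveF F
  have hfH : Finite (gH F j) := gH_finite F j hj
  refine ⟨Nat.card (gH F j), Nat.card_pos, fun a w hw v => ?_⟩
  have hwt := at_of_van F hw
  have hga : j (g - algebraMap k K a) =
      algebraMap (RatFunc k) F (RatFunc.X - RatFunc.C a) := by
    rw [map_sub, map_sub, hj, j.commutes]
    rfl
  have hxa : algebraMap (RatFunc k) F (RatFunc.X - RatFunc.C a) ≠ 0 := by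
    have h1 : algebraMap (RatFunc k) F (RatFunc.X - RatFunc.C a) =
        Polynomial.aeval (algebraMap (RatFunc k) F RatFunc.X)
          (Polynomial.X - Polynomial.C a) := by
      rw [← alg_poly, map_sub (algebraMap (Polynomial k) (RatFunc k)), RatFunc.algebraMap_X,
        RatFunc.algebraMap_C]
    rw [h1]
    exact aeval_ne F (Polynomial.X_sub_C_ne_zero a)
  have hg0 : g - algebraMap k K a ≠ 0 := by
    intro h
    rw [h, map_zero] at hga
    exact hxa hga.symm
  by_cases hv : v.Vanishes (g - algebraMap k K a)
  · -- the main case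
    have hpos := (vanishes_iff_ord hK hg0).1 hv
    have hjm : ∀ x, j x ∈ IntermediateField.fixedField (gH F j) := by
      intro x
      rw [WFC.mem_fix_iff]
      exact fun b => b.2 x
    let e0 : K →ₐ[k] IntermediateField.fixedField (gH F j) :=
      j.codRestrict (IntermediateField.fixedField (gH F j)).toSubalgebra hjm
    have he0 : Function.Bijective e0 := by
      refine ⟨fun x y hxy => j.injective (congrArg Subtype.val hxy), fun y => ?_⟩
      obtain ⟨x, hx⟩ := fixH F j hj (x := (y : F))
        (fun b hb => (WFC.mem_fix_iff (gH F j) (y : F)).1 y.2 ⟨b, hb⟩)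
      exact ⟨x, Subtype.ext hx⟩
    let e : K ≃ₐ[k] IntermediateField.fixedField (gH F j) := AlgEquiv.ofBijective e0 he0
    have hej : ∀ x, ((e x : IntermediateField.fixedField (gH F j)) : F) = j x := fun x => rfl
    obtain ⟨w0, hw0⟩ := WFC.exists_above_fix (gH F j) (v.map e)
    have hcond : ∀ c : Place k F,
        c.ring.comap (j : K →+* F) = v.ring ↔ WFC.below (gH F j) c = WFC.below (gH F j) w0 := by
      intro c
      rw [hw0]
      constructor
      · intro h
        apply Place.ext
        ext f
        obtain ⟨x, rfl⟩ := e.surjective f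
        rw [WFC.mem_below, hej, Place.mem_map, AlgEquiv.symm_apply_apply, ← h,
          ValuationSubring.mem_comap]
        rfl
      · intro h
        ext x
        rw [ValuationSubring.mem_comap]
        have h1 : e x ∈ (WFC.below (gH F j) c).ring ↔ e x ∈ (v.map e).ring := by rw [h]
        rw [WFC.mem_below, hej, Place.mem_map, AlgEquiv.symm_apply_apply] at h1
        exact h1
    have hw0t : w0.At (algebraMap (RatFunc k) F RatFunc.X) a := by
      have h1 : (v.map e).At (e g) a := by
        rw [Place.at_map, AlgEquiv.symm_apply_apply]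
        exact hv
      rw [← hw0, WFC.at_below, hej, hj] at h1
      exact h1
    obtain ⟨t0, ht0⟩ := WFC.exists_map_eq (gG F) hF (belowG F hwt hw0t)
    have hP : ∀ c : Place k F, WFC.below (gH F j) c = WFC.below (gH F j) w0 →
        ∃ b : gG F, w.map b.1 = c := by
      intro c hc
      obtain ⟨h, hh⟩ := WFC.exists_map_eq (gH F j) hF hc.symm
      refine ⟨⟨h.1, gH_le F j hj h.2⟩ * t0, ?_⟩
      change w.map (h.1 * t0.1) = c
      rw [← WFC.pmap_mul, ht0, hh]
    have hS : Nat.card {τ : F ≃ₐ[RatFunc k] F //
        (w.map (τ.restrictScalars k)).ring.comap (j : K →+* F) = v.ring} =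
        Nat.card {b : gG F // WFC.below (gH F j) (w.map b.1) = WFC.below (gH F j) w0} := by
      refine Nat.card_congr (Equiv.subtypeEquiv
        (MonoidHom.ofInjective (AlgEquiv.restrictScalarsHom_injective k)).toEquiv fun τ => ?_)
      exact hcond (w.map (τ.restrictScalars k))
    have hcard := card_fib (gG F) (fun c => WFC.below (gH F j) c = WFC.below (gH F j) w0) w hP
    have habove := WFC.card_above (gH F j) hF w0
    have hst : WFC.stb (gG F) w0 = WFC.stb (gG F) w := by
      rw [← ht0]
      exact WFC.stb_map (gG F) t0 w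
    -- ramification
    have hu := unifG F hw0t
    have o1 := WFC.ord_below (gG F) hF w0 hu.1
    rw [ord_unif (WFC.fix_curve (gG F) hF) hu, mul_one] at o1
    have o2 := WFC.ord_below (gH F j) hF w0 (f := e (g - algebraMap k K a))
      ((map_ne_zero e).2 hg0)
    rw [hw0, ord_equiv hK (WFC.fix_curve (gH F j) hF) e v, hej, hga] at o2
    have o3 : (WFC.stb (gG F) w0 : ℤ) =
        WFC.stb (gH F j) w0 * ord v (g - algebraMap k K a) := by
      rw [← o2]
      exact o1.symm
    have hsp := WFC.stb_pos (gH F j) w0
    rw [max_eq_right hpos.le, hS]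
    have h5 : (Nat.card {b : gG F // WFC.below (gH F j) (w.map b.1) =
        WFC.below (gH F j) w0} : ℤ) * WFC.stb (gH F j) w0 =
        (Nat.card (gH F j) : ℤ) * ord v (g - algebraMap k K a) * WFC.stb (gH F j) w0 := by
      have h6 : (Nat.card {b : gG F // WFC.below (gH F j) (w.map b.1) =
          WFC.below (gH F j) w0} : ℤ) =
          Nat.card {c // WFC.below (gH F j) c = WFC.below (gH F j) w0} *
            WFC.stb (gG F) w := by
        exact_mod_cast hcard
      have h7 : (Nat.card {c // WFC.below (gH F j) c = WFC.below (gH F j) w0} : ℤ) *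
          WFC.stb (gH F j) w0 = Nat.card (gH F j) := by
        exact_mod_cast habove
      rw [h6, ← hst, o3, ← h7]
      ring
    have hsp' : (WFC.stb (gH F j) w0 : ℤ) ≠ 0 := by exact_mod_cast hsp.ne'
    exact mul_right_cancel₀ hsp' h5
  · -- nothing above `v`
    have hle : ord v (g - algebraMap k K a) ≤ 0 := by
      rw [← not_lt, ← vanishes_iff_ord hK hg0]
      exact hv
    rw [max_eq_left hle, mul_zero]
    have hem : IsEmpty {τ : F ≃ₐ[RatFunc k] F //
        (w.map (τ.restrictScalars k)).ring.comap (j : K →+* F) = v.ring} := by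
      refine ⟨fun τ => hv ?_⟩
      have h1 : (w.map (τ.1.restrictScalars k)).Vanishes (j (g - algebraMap k K a)) := by
        rw [hga, Place.vanishes_map]
        have h2 : (τ.1.restrictScalars k).symm
            (algebraMap (RatFunc k) F (RatFunc.X - RatFunc.C a)) =
            algebraMap (RatFunc k) F (RatFunc.X - RatFunc.C a) := τ.1.symm.commutes _
        rw [h2]
        exact hw
      rw [Place.vanishes_iff_or] at h1 ⊢
      right
      rcases h1 with h1 | h1
      · rw [hga] at h1
        exact absurd h1 hxa
      · intro h2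
        apply h1
        rw [← τ.2, ValuationSubring.mem_comap] at h2
        rw [← map_inv₀]
        exact h2
    rw [Nat.card_of_isEmpty]
    rfl

end Pool.Agent.DWG
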