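import Pool.Agent.DWK.Defs
import Pool.Agent.TInc.Ord

/-!
# The divisor of f / (f + 1)
-/

set_option autoImplicit false

noncomputable section

namespace Pool.Agent.DWG

open Pool.Agent.ZCyc Pool.Agent.GT Pool.Agent.DWK
open Pool.Agent.VFP (Om tt)
open scoped Classical LinearAlgebra.Projectivization

open Pool.Agent.Dess Pool.Agent.TInc

variable {k : Type} [Field k] [IsAlgClosed k] [CharZero k]

/-- Let `f` be transcendental and `g = f / (f + 1)`. For all places `v` we have
`ord_v f = max(0, ord_v g) - max(0, ord_v (g - 1))`, where `g - 1 = -1 / (f + 1)`: cases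
`ord_v f > 0` (`f + 1` is a unit), `ord_v f < 0` (`ord_v (f + 1) = ord_v f`), `ord_v f = 0`
(`f + 1` is
in the ring). -/
theorem ord_split {K : Type} [Field K] [Algebra k K] (hK : IsCurve k K) {f : K}
    (hf : Transcendental k f) (v : Place k K) :
    ord v f = max 0 (ord v (f / (f + 1))) - max 0 (ord v (f / (f + 1) - 1)) := by
  have hf0 : f ≠ 0 := by
    rintro rfl
    exact hf (isAlgebraic_zero)
  have hf1 : f + 1 ≠ 0 := by
    intro h
    have h1 : f = algebraMap k K (-1) := by
      rw [map_neg, map_one]
      exact eq_neg_of_add_eq_zero_left h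
    rw [h1] at hf
    exact hf (isAlgebraic_algebraMap _)
  have h1 : ord v (1 : K) = 0 := by
    have := ord_const hK v (1 : k)
    rwa [map_one] at this
  have e1 : ord v (f / (f + 1)) = ord v f - ord v (f + 1) := by
    rw [div_eq_mul_inv, ord_mul hK v hf0 (inv_ne_zero hf1), ord_inv hK]
    ring
  have e2 : ord v (f / (f + 1) - 1) = -ord v (f + 1) := by
    have : f / (f + 1) - 1 = -(f + 1)⁻¹ := by
      field_simp
      ring
    rw [this, ord_neg hK, ord_inv hK]
  rw [e1, e2]
  rcases lt_trichotomy (ord v f) 0 with h | h | h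
  · have h2 := (ord_add_eq hK (v := v) hf0 (g := 1) fun _ => by rw [h1]; exact h).2
    rw [h2, sub_self, max_self, max_eq_right (by omega)]
    omega
  · have h2 : 0 ≤ ord v (f + 1) := le_ord_add hK hf1 (fun _ => h.ge) fun _ => h1.ge
    rw [h]
    omega
  · have h2 := (ord_add_eq hK (v := v) (one_ne_zero (α := K)) (g := f)
      fun _ => by rw [h1]; exact h).2
    rw [add_comm, h1] at h2
    rw [h2, neg_zero, sub_zero, max_self, sub_zero, max_eq_right h.le]

end Pool.Agent.DWG
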