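import Pool.Agent.DWG.Gal
import Pool.Agent.DWG.Cnt
import Pool.Agent.DWG.OrdS
import Pool.Agent.MPC.Defs
import Pool.Agent.GT.Lim

/-!
# Divisors of functions and Galois coverings of the line
-/

set_option autoImplicit false

noncomputable section

namespace Pool.Agent.DWG

open Pool.Agent.ZCyc Pool.Agent.GT Pool.Agent.DWK
open Pool.Agent.VFP (Om tt)
open scoped Classical LinearAlgebra.Projectivization

open Pool.Agent.Dess Pool.Agent.TInc

variable {k : Type} [Field k] [IsAlgClosed k] [CharZero k]

omit [IsAlgClosed k] [CharZero k] in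
private theorem sub_C (F : IntermediateField (RatFunc k) (Om k)) (a : k) :
    algebraMap (RatFunc k) F (RatFunc.X - RatFunc.C a) =
      algebraMap (RatFunc k) F RatFunc.X - algebraMap k F a := by
  rw [map_sub]
  congr 1

omit [IsAlgClosed k] [CharZero k] in
/-- the place of `K` below a place of `F` -/
private theorem exists_bel {K : Type} [Field K] [Algebra k K] {g : K}
    (F : IntermediateField (RatFunc k) (Om k)) [FiniteDimensional (RatFunc k) F]
    (j : K →ₐ[k] F) (hj : j g = algebraMap (RatFunc k) F RatFunc.X) (w : Place k F) :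
    ∃ v : Place k K, w.ring.comap (j : K →+* F) = v.ring := by
  refine ⟨⟨w.ring.comap (j : K →+* F), fun c => ?_, fun htop => ?_⟩, rfl⟩
  · rw [ValuationSubring.mem_comap]
    have h1 : (j : K →+* F) (algebraMap k K c) = algebraMap k F c := j.commutes c
    rw [h1]
    exact w.const_mem _
  · have hr : ∀ z : K, j z ∈ w.ring := by
      intro z
      have : z ∈ w.ring.comap (j : K →+* F) := by
        rw [htop]
        exact ValuationSubring.mem_top z
      exact ValuationSubring.mem_comap.1 this
    have hp : ∀ p : Polynomial k, algebraMap (RatFunc k) F (algebraMap (Polynomial k)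
        (RatFunc k) p) = j (Polynomial.aeval g p) := by
      intro p
      rw [← Polynomial.aeval_algHom_apply, hj]
      induction p using Polynomial.induction_on' with
      | add p q hp hq => rw [map_add, map_add, map_add, hp, hq]
      | monomial n a =>
        rw [Polynomial.aeval_monomial, ← Polynomial.C_mul_X_pow_eq_monomial, map_mul,
          map_mul, map_pow, map_pow, RatFunc.algebraMap_X]
        congr 1
    have hq : ∀ q : RatFunc k, algebraMap (RatFunc k) F q ∈ w.ring := by
      intro q
      rw [← RatFunc.num_div_denom q, map_div₀, hp, hp, ← map_div₀]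
      exact hr _
    apply w.ne_top
    ext z
    refine ⟨fun _ => ValuationSubring.mem_top z, fun _ => ?_⟩
    have hz : IsIntegral (RatFunc k) z := Algebra.IsIntegral.isIntegral z
    obtain ⟨p, hp1, hp0⟩ := hz
    let ι : RatFunc k →+* w.ring :=
      (algebraMap (RatFunc k) F).codRestrict w.ring.toSubring fun x => hq x
    have h1 : IsIntegral w.ring z := by
      refine ⟨p.map ι, hp1.map ι, ?_⟩
      rw [Polynomial.eval₂_map]
      exact hp0
    obtain ⟨y, hy⟩ := IsIntegrallyClosed.isIntegral_iff.1 h1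
    rw [← hy]
    exact y.2

omit [IsAlgClosed k] [CharZero k] in
/-- values at places above each other -/
private theorem at_bel {K : Type} [Field K] [Algebra k K]
    {F : IntermediateField (RatFunc k) (Om k)} {j : K →ₐ[k] F} {w : Place k F} {v : Place k K}
    (h : w.ring.comap (j : K →+* F) = v.ring) (f : K) (c : k) (hf : v.At f c) :
    w.At (j f) c := by
  unfold Place.At at hf ⊢
  rw [Place.vanishes_iff_or] at hf ⊢
  rw [← j.commutes c, ← map_sub, ← map_inv₀, map_eq_zero]
  rw [← h, ValuationSubring.mem_comap] at hf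
  exact hf

/-- A generator `∑ v, D v [y v]` of `Rat`, for the function `f` on a curve, is rationally equivalent
to zero in the sense of `MPC.ratEquiv`. If `f` is a constant then `D = 0` (the order of a nonzero
constant is `0`, `ord_eq`). Otherwise let `g = f / (f + 1)`, and take `F`, `j` from `exists_gal` for `g`,
and places `w₀`, `w₁` of `F` above `X = 0` and `X = 1` (`exists_place` for the transcendental element
`X`). The coordinates `j ((x i).1.rep l)` define a morphism from the curve of `F`, its value at the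
place `w` is the value of `x` at the place of `K` below `w` (`isVal_map`; the place below exists
because `F` is algebraic over `K`, compare `WFC.exists_below_fix`). So the generator of
`MPC.ratEquiv` for `w₀`, `w₁` is `∑ τ, ([y(τ w₀ | K)] - [y(τ w₁ | K)])`, which is
`N ∑ v, (max(0, ord_v g) - max(0, ord_v (g - 1))) [y v] = N z` by `count` and `ord_split`. -/
theorem rat_gen {m r : ℕ} {X : Set (MvPolynomial (Fin (m + 1)) k)} (hX : Hom X) {K : Type}
    [Field K] [Algebra k K] (hK : IsCurve k K) (x : Fin r → Pt X K)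
    (y : Place k K → Fin r → Pt X k) {f : K} (hf : f ≠ 0) (D : Place k K →₀ ℤ)
    (hD : ∀ v, HasOrd v f (D v)) (hy : ∀ v l, IsVal v (x l) (y v l)) :
    (D.sum fun v a => Finsupp.single (fun l => (y v l).1) (a : ℚ)) ∈
      MPC.ratEquiv (J := fun _ : Fin r => Fin (m + 1)) ℚ
        {p | ∀ i, ∀ F ∈ X, MvPolynomial.aeval (p i).rep F = 0} := by
  by_cases hconst : ∃ c : k, f = algebraMap k K c
  · obtain ⟨c, rfl⟩ := hconst
    have hD0 : D = 0 := by
      ext v
      rw [← ord_eq hK hf (hD v), ord_const hK v c]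
      rfl
    rw [hD0, Finsupp.sum_zero_index]
    exact Submodule.zero_mem _
  have hc0 : ∀ c : k, f ≠ algebraMap k K c := fun c h => hconst ⟨c, h⟩
  have hft : Transcendental k f := transc_of_ne hK hc0
  have hf1 : f + 1 ≠ 0 := by
    intro h
    apply hc0 (-1)
    rw [map_neg, map_one]
    exact eq_neg_of_add_eq_zero_left h
  have hgt : Transcendental k (f / (f + 1)) := by
    apply transc_of_ne hK
    intro a ha
    rw [div_eq_iff hf1] at ha
    by_cases ha1 : a = 1
    · rw [ha1, map_one, one_mul] at ha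
      exact one_ne_zero (left_eq_add.1 ha)
    · apply hc0 (a / (1 - a))
      have h1 : (1 - algebraMap k K a) ≠ 0 := by
        intro h
        apply ha1
        apply (algebraMap k K).injective
        rw [map_one]
        exact (sub_eq_zero.1 h).symm
      rw [map_div₀, map_sub, map_one, eq_div_iff h1]
      linear_combination ha
  set g : K := f / (f + 1) with hg
  obtain ⟨F, hfin, hgal, j, hj⟩ := exists_gal hK hgt
  have hXt : Transcendental k (algebraMap (RatFunc k) F RatFunc.X) := by
    rw [← hj]
    intro h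
    exact hgt ((isAlgebraic_algHom_iff j j.toRingHom.injective).1 h)
  obtain ⟨w₀, hw₀⟩ := exists_place hXt (0 : k)
  obtain ⟨w₁, hw₁⟩ := exists_place hXt (1 : k)
  have hw₀' : w₀.Vanishes (algebraMap (RatFunc k) F (RatFunc.X - RatFunc.C (0 : k))) := by
    rw [sub_C]
    exact hw₀
  have hw₁' : w₁.Vanishes (algebraMap (RatFunc k) F (RatFunc.X - RatFunc.C (1 : k))) := by
    rw [sub_C]
    exact hw₁
  choose bel hbel using exists_bel (K := K) F j hj
  obtain ⟨N, hN, hcount⟩ := count hK F j hj
  set P : Place k K → (∀ _ : Fin r, ℙ k (Fin (m + 1) → k)) := fun v l => (y v l).1 with hP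
  have hgen : (∑ τ : F ≃ₐ[RatFunc k] F,
      (Finsupp.single (P (bel (w₀.map (τ.restrictScalars k)))) (1 : ℚ) -
        Finsupp.single (P (bel (w₁.map (τ.restrictScalars k)))) (1 : ℚ))) ∈
      MPC.ratEquiv (J := fun _ : Fin r => Fin (m + 1)) ℚ
        {p | ∀ i, ∀ F ∈ X, MvPolynomial.aeval (p i).rep F = 0} := by
    refine Submodule.subset_span ?_
    refine ⟨F, inferInstance, inferInstance, inferInstance, inferInstance, hfin, hgal,
      fun i l => j ((x i).1.rep l), fun w => P (bel w), ?_, ?_, 0, 1, w₀, w₁, hw₀', hw₁', rfl⟩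
    · intro w i
      obtain ⟨l, hl⟩ := hy (bel w) i
      refine ⟨j l, fun a => ?_⟩
      have h1 := at_bel (hbel w) _ _ (hl a)
      rw [map_mul] at h1
      exact h1
    · intro w i F' hF'
      exact (y (bel w) i).2 F' hF'
  have hsum : ∀ (S : Finset (Place k K)) (w : Place k F)
      (_ : ∀ τ : F ≃ₐ[RatFunc k] F, bel (w.map (τ.restrictScalars k)) ∈ S),
      (∑ τ : F ≃ₐ[RatFunc k] F,
        Finsupp.single (P (bel (w.map (τ.restrictScalars k)))) (1 : ℚ)) =
      ∑ v ∈ S, ((Nat.card {τ : F ≃ₐ[RatFunc k] F //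
          (w.map (τ.restrictScalars k)).ring.comap (j : K →+* F) = v.ring} : ℤ) : ℚ) •
        Finsupp.single (P v) (1 : ℚ) := by
    intro S w hS
    rw [← Finset.sum_fiberwise_of_maps_to (s := Finset.univ) (t := S)
      (g := fun τ : F ≃ₐ[RatFunc k] F => bel (w.map (τ.restrictScalars k)))
      (fun τ _ => hS τ)]
    refine Finset.sum_congr rfl fun v _ => ?_
    have h1 : ∀ τ ∈ Finset.univ.filter (fun τ : F ≃ₐ[RatFunc k] F =>
        bel (w.map (τ.restrictScalars k)) = v),
        Finsupp.single (P (bel (w.map (τ.restrictScalars k)))) (1 : ℚ) =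
          Finsupp.single (P v) (1 : ℚ) := by
      intro τ hτ
      rw [(Finset.mem_filter.1 hτ).2]
    rw [Finset.sum_congr rfl h1, Finset.sum_const]
    have h2 : (Nat.card {τ : F ≃ₐ[RatFunc k] F //
        (w.map (τ.restrictScalars k)).ring.comap (j : K →+* F) = v.ring}) =
        (Finset.univ.filter (fun τ : F ≃ₐ[RatFunc k] F =>
          bel (w.map (τ.restrictScalars k)) = v)).card := by
      rw [Nat.card_eq_fintype_card, Fintype.card_subtype]
      congr 1
      ext τ
      simp only [Finset.mem_filter, Finset.mem_univ, true_and]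
      rw [hbel, Place.ext_iff]
    rw [h2, Int.cast_natCast, Nat.cast_smul_eq_nsmul]
  set S : Finset (Place k K) := D.support ∪
    (Finset.univ.image (fun τ : F ≃ₐ[RatFunc k] F => bel (w₀.map (τ.restrictScalars k))) ∪
      Finset.univ.image (fun τ : F ≃ₐ[RatFunc k] F => bel (w₁.map (τ.restrictScalars k))))
    with hSdef
  have hS0 : ∀ τ : F ≃ₐ[RatFunc k] F, bel (w₀.map (τ.restrictScalars k)) ∈ S := fun τ =>
    Finset.mem_union_right _ (Finset.mem_union_left _
      (Finset.mem_image_of_mem _ (Finset.mem_univ τ)))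
  have hS1 : ∀ τ : F ≃ₐ[RatFunc k] F, bel (w₁.map (τ.restrictScalars k)) ∈ S := fun τ =>
    Finset.mem_union_right _ (Finset.mem_union_right _
      (Finset.mem_image_of_mem _ (Finset.mem_univ τ)))
  rw [Finset.sum_sub_distrib, hsum S w₀ hS0, hsum S w₁ hS1, ← Finset.sum_sub_distrib] at hgen
  have hz : (D.sum fun v a => Finsupp.single (fun l => (y v l).1) (a : ℚ)) =
      ∑ v ∈ S, Finsupp.single (P v) ((D v : ℤ) : ℚ) := by
    rw [Finsupp.sum_of_support_subset D (Finset.subset_union_left) _ (by simp)]
  rw [hz]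
  have hNq : (N : ℚ) ≠ 0 := by exact_mod_cast hN.ne'
  have hfin2 : (∑ v ∈ S, Finsupp.single (P v) ((D v : ℤ) : ℚ)) = (N : ℚ)⁻¹ •
      ∑ v ∈ S, ((((Nat.card {τ : F ≃ₐ[RatFunc k] F //
          (w₀.map (τ.restrictScalars k)).ring.comap (j : K →+* F) = v.ring} : ℤ) : ℚ) •
        Finsupp.single (P v) (1 : ℚ)) -
        (((Nat.card {τ : F ≃ₐ[RatFunc k] F //
          (w₁.map (τ.restrictScalars k)).ring.comap (j : K →+* F) = v.ring} : ℤ) : ℚ) •
        Finsupp.single (P v) (1 : ℚ))) := by
    rw [Finset.smul_sum]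
    refine Finset.sum_congr rfl fun v _ => ?_
    have e0 := hcount 0 w₀ hw₀' v
    have e1 := hcount 1 w₁ hw₁' v
    rw [map_zero, sub_zero] at e0
    rw [map_one] at e1
    rw [e0, e1, ← sub_smul, Finsupp.smul_single, Finsupp.smul_single]
    congr 1
    rw [← ord_eq hK hf (hD v), ord_split hK hft v, ← hg]
    push_cast
    rw [smul_eq_mul, smul_eq_mul]
    field_simp
  rw [hfin2]
  exact Submodule.smul_mem _ _ hgen

/-- `rat_gen` and linearity -/
theorem rat_le {m r : ℕ} {X : Set (MvPolynomial (Fin (m + 1)) k)} (hX : Hom X)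
    {z : (Fin r → Pt X k) →₀ ℚ} (hz : z ∈ Rat X (Fin r)) :
    z.mapDomain (fun x l => (x l).1) ∈ MPC.ratEquiv (J := fun _ : Fin r => Fin (m + 1)) ℚ
        {p | ∀ i, ∀ F ∈ X, MvPolynomial.aeval (p i).rep F = 0} := by
  have h : Rat X (Fin r) ≤ (MPC.ratEquiv (J := fun _ : Fin r => Fin (m + 1)) ℚ
        {p | ∀ i, ∀ F ∈ X, MvPolynomial.aeval (p i).rep F = 0}).comap
      (Finsupp.lmapDomain ℚ ℚ (fun (x : Fin r → Pt X k) l => (x l).1)) := by
    refine Submodule.span_le.2 ?_
    rintro _ ⟨K, _, _, hK, x, y, f, D, hf, hD, hy, rfl⟩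
    rw [SetLike.mem_coe, Submodule.mem_comap, Finsupp.lmapDomain_apply]
    have h1 := rat_gen hX hK x y hf D hD hy
    convert h1 using 1
    unfold Finsupp.sum
    rw [Finsupp.mapDomain_finsetSum]
    refine Finset.sum_congr rfl fun v _ => ?_
    rw [Finsupp.mapDomain_single]
  exact h hz

end Pool.Agent.DWG
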