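import Pool.Agent.DWG.AltA

/-!
# The generalized Bloch conjecture for the powers of the Dwork quintic threefolds
-/

set_option autoImplicit false

noncomputable section

namespace Pool.Agent.DWG

open Pool.Agent.ZCyc Pool.Agent.GT Pool.Agent.DWK
open Pool.Agent.VFP (Om tt)
open scoped Classical LinearAlgebra.Projectivization

variable {k : Type} [Field k] [IsAlgClosed k] [CharZero k] {t : k}

/-- a monomial automorphism acts on the classes of degree zero by the sign of the permutation:
`g.ap x = (h_i x_(π i))`, `cls_perm` for `x ∘ π` and `cls_H` -/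
theorem cls_ap {x : Fin 5 → k} (h : On t x) (g : Mon k) :
    cls t (g.ap x) - oC t = (((Equiv.Perm.sign g.π : ℤˣ) : ℤ) : ℚ) • (cls t x - oC t) := by
  rw [← cls_perm h g.π, ← cls_H (on_perm h g.π) g.pow g.prod]
  rfl

/-- the image of a basis vector -/
private theorem Kill_LS {m : ℕ} (σ : Equiv.Perm (Fin m)) (s : Fin m → ℚ) (b x : Fin m) :
    LS σ s (Pi.single b 1) x = if x = σ b then s b else 0 := by
  change s (σ⁻¹ x) * (Pi.single b (1 : ℚ) : Fin m → ℚ) (σ⁻¹ x) = _
  by_cases hx : x = σ b
  · subst hx
    simp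
  · have h1 : σ⁻¹ x ≠ b := by
      intro h
      apply hx
      rw [← h]
      simp
    rw [Pi.single_eq_of_ne h1, if_neg hx, mul_zero]

omit [IsAlgClosed k] [CharZero k] in
private theorem Kill_sum {m : ℕ} (σ : Equiv.Perm (Fin m)) (s : Fin m → ℚ) (b : Fin m)
    (z : Fin m → V t) : ∑ x, LS σ s (Pi.single b 1) x • z x = s b • z (σ b) := by
  rw [Finset.sum_eq_single (σ b)]
  · rw [Kill_LS, if_pos rfl]
  · intro x _ hx
    rw [Kill_LS, if_neg hx, zero_smul]
  · intro h
    exact absurd (Finset.mem_univ _) h

/-- Let `z_x = cls t (y_x) - oC t` and `s_b` the sign of `(g i b).π`. By `cls_ap` the class at the place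
`b` is `oC t + s_b z_(σ b)`. By `MultilinearMap.map_add_univ` the product is the sum over all sets `S` of the
products of the `s_b z_(σ b)` for `b` in `S` and of `oC t` for the other `b`. With the map `T` of
`exists_alt` for `S`, `r` its number of elements, this is
`T (ιMulti (fun j => LM (e_(b_j)))) = T (ExteriorAlgebra.map (LM ..) (ιMulti (e_(b_j))))`, where `b_j` are the
elements of `S` and `e_b = Pi.single b 1`, because `LM` maps `e_b` to `s_b e_(σ b)`
(`ExteriorAlgebra.map_apply_ιMulti`). So the sum over `i` with the coefficients `a i` is zero by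
the hypothesis. -/
theorem kill_zero {m : ℕ} {ι : Type} [Fintype ι] (g : ι → Aut k m) (a : ι → ℚ)
    (h : ∑ i, a i • (ExteriorAlgebra.map (LM (g i))).toLinearMap = 0) (y : Fin m → Fin 5 → k)
    (hy : ∀ b, On t (y b)) :
    ∑ i, a i • Ext (dwork_hom t) m (fun b => cls t (((g i).2 b).ap (y ((g i).1 b)))) = 0 := by
  let z : Fin m → V t := fun b => cls t (y b) - oC t
  have hz : ∀ b, z b ∈ V0 t := fun b => sub_mem (hy b)
  let s : ι → Fin m → ℚ := fun i b => (((Equiv.Perm.sign ((g i).2 b).π : ℤˣ) : ℤ) : ℚ)
  have h1 : ∀ i, Ext (dwork_hom t) m (fun b => cls t (((g i).2 b).ap (y ((g i).1 b)))) =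
      ∑ S : Finset (Fin m), Ext (dwork_hom t) m
        (S.piecewise (fun b => s i b • z ((g i).1 b)) (fun _ => oC t)) := by
    intro i
    rw [← MultilinearMap.map_add_univ]
    congr 1
    funext b
    have h2 := cls_ap (hy ((g i).1 b)) ((g i).2 b)
    change _ = s i b • z ((g i).1 b) + oC t
    rw [← sub_eq_iff_eq_add]
    exact h2
  have h3 : ∀ S : Finset (Fin m), ∑ i, a i • Ext (dwork_hom t) m
      (S.piecewise (fun b => s i b • z ((g i).1 b)) (fun _ => oC t)) = 0 := by
    intro S
    obtain ⟨T, hT⟩ := exists_alt z hz S rfl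
    let e : Fin S.card → (Fin m → ℚ) := fun j => Pi.single (S.orderEmbOfFin rfl j) 1
    have h4 : ∀ i, Ext (dwork_hom t) m
        (S.piecewise (fun b => s i b • z ((g i).1 b)) (fun _ => oC t)) =
        T (ExteriorAlgebra.map (LM (g i)) (ExteriorAlgebra.ιMulti ℚ S.card e)) := by
      intro i
      rw [ExteriorAlgebra.map_apply_ιMulti, hT]
      congr 1
      funext b
      by_cases hb : b ∈ S
      · have hex : ∃ j : Fin S.card, S.orderEmbOfFin rfl j = b := by
          have h5 := S.range_orderEmbOfFin (rfl : S.card = S.card)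
          have h6 : b ∈ Set.range (S.orderEmbOfFin (rfl : S.card = S.card)) := by
            rw [h5]
            exact hb
          exact h6
        rw [Finset.piecewise_eq_of_mem _ _ _ hb, dif_pos hex]
        have h7 := hex.choose_spec
        have h8 : (LM (g i) ∘ e) hex.choose = LS (g i).1 (s i) (Pi.single b 1) := by
          change LM (g i) (Pi.single (S.orderEmbOfFin rfl hex.choose) 1) = _
          rw [h7]
          rfl
        rw [h8, Kill_sum]
      · have hex : ¬ ∃ j : Fin S.card, S.orderEmbOfFin rfl j = b := by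
          rintro ⟨j, hj⟩
          apply hb
          rw [← hj]
          exact S.orderEmbOfFin_mem rfl j
        rw [Finset.piecewise_eq_of_notMem _ _ _ hb, dif_neg hex]
    calc ∑ i, a i • Ext (dwork_hom t) m
          (S.piecewise (fun b => s i b • z ((g i).1 b)) (fun _ => oC t))
        = T ((∑ i, a i • (ExteriorAlgebra.map (LM (g i))).toLinearMap)
            (ExteriorAlgebra.ιMulti ℚ S.card e)) := by
          rw [LinearMap.sum_apply, map_sum]
          refine Finset.sum_congr rfl fun i _ => ?_
          rw [h4 i, LinearMap.smul_apply, map_smul]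
          rfl
      _ = 0 := by rw [h, LinearMap.zero_apply, map_zero]
  calc ∑ i, a i • Ext (dwork_hom t) m (fun b => cls t (((g i).2 b).ap (y ((g i).1 b))))
      = ∑ i, ∑ S : Finset (Fin m), a i • Ext (dwork_hom t) m
          (S.piecewise (fun b => s i b • z ((g i).1 b)) (fun _ => oC t)) :=
        Finset.sum_congr rfl fun i _ => by rw [h1 i, Finset.smul_sum]
    _ = ∑ S : Finset (Fin m), ∑ i, a i • Ext (dwork_hom t) m
          (S.piecewise (fun b => s i b • z ((g i).1 b)) (fun _ => oC t)) := Finset.sum_comm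
    _ = 0 := Finset.sum_eq_zero fun S _ => h3 S

omit [IsAlgClosed k] [CharZero k] in
private theorem Kill_aeval (x : Fin (4 + 1) → k) : MvPolynomial.aeval x (dwork t) =
    ∑ i, x i ^ 5 - algebraMap k k (5 * t) * ∏ i, x i := by
  unfold dwork
  rw [map_sub, map_sum, map_mul, map_prod, MvPolynomial.algHom_C]
  simp only [map_pow, MvPolynomial.aeval_X]

omit [IsAlgClosed k] [CharZero k] in
private theorem Kill_on (p : Pt {dwork t} k) : On t (p.1.rep : Fin 5 → k) :=
  ⟨p.1.rep_nonzero, sub_eq_zero.1 ((Kill_aeval (t := t) p.1.rep).symm.trans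
    (p.2 (dwork t) rfl))⟩

/-- the same for the cycles: `kill_zero` for the representatives, `cyc_on`, `Ext_cl`, `ext_single`; the
point `actP g p` has the coordinates `g.ap p.rep` (up to a factor) -/
theorem kill_rat {m : ℕ} {ι : Type} [Fintype ι] (g : ι → Aut k m) (a : ι → ℚ)
    (h : ∑ i, a i • (ExteriorAlgebra.map (LM (g i))).toLinearMap = 0) (p : Fin m → Pt {dwork t} k)
    (q : ι → Fin m → Pt {dwork t} k)
    (hq : ∀ i b, (q i b).1 = actP ((g i).2 b) (p ((g i).1 b)).1) :
    ∑ i, Finsupp.single (q i) (a i) ∈ Rat {dwork t} (Fin m) := by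
  have h0 := kill_zero g a h (fun b => ((p b).1.rep : Fin 5 → k)) fun b => Kill_on (p b)
  have h1 : ∀ i, Ext (dwork_hom t) m
      (fun b => cls t (((g i).2 b).ap ((p ((g i).1 b)).1.rep : Fin 5 → k))) =
      Submodule.Quotient.mk (Finsupp.single (q i) (1 : ℚ)) := by
    intro i
    have h2 : (fun b => cls t (((g i).2 b).ap ((p ((g i).1 b)).1.rep : Fin 5 → k))) =
        fun b => cl1 {dwork t} (Finsupp.single (q i b) (1 : ℚ)) := by
      funext b
      have hon := on_ap ((g i).2 b) (Kill_on (p ((g i).1 b)))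
      have h3 : mkPt (dwork_hom t)
          (((g i).2 b).ap ((p ((g i).1 b)).1.rep : Fin 5 → k) : Fin (4 + 1) → k)
          hon.1 hon.aeval = q i b := by
        apply Subtype.ext
        exact (hq i b).symm
      unfold cls
      rw [cyc_on hon, h3]
    rw [h2, Ext_cl, ext_single, Finset.prod_const_one]
  simp only [h1] at h0
  rw [← Submodule.Quotient.mk_eq_zero, ← Submodule.mkQ_apply, map_sum]
  refine Eq.trans (Finset.sum_congr rfl fun i _ => ?_) h0
  rw [Submodule.mkQ_apply, ← Submodule.Quotient.mk_smul, Finsupp.smul_single, smul_eq_mul,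
    mul_one]

end Pool.Agent.DWG
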