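import Pool.Agent.DWK.Defs2
import Pool.Agent.BS.Prod.Defs
import Pool.Agent.BS.Metric
import Pool.Agent.BS.ASDefs

/-!
# Automorphisms of the powers of the Dwork quintic threefolds: definitions
-/

set_option autoImplicit false

noncomputable section

namespace Pool.Agent.DWG

open Pool.Agent.ZCyc Pool.Agent.GT Pool.Agent.DWK
open Pool.Agent.VFP (Om tt)
open scoped Classical LinearAlgebra.Projectivization

variable {k : Type} [Field k]

/-- the image of a point of projective space under a monomial automorphism -/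
def actP (g : Mon k) (p : ℙ k (Fin 5 → k)) : ℙ k (Fin 5 → k) :=
  Projectivization.mk k (g.ap p.rep) (by
    intro h
    apply p.rep_nonzero
    funext i
    have h1 := congrFun h (g.π.symm i)
    simp only [Mon.ap, Pi.zero_apply, Equiv.apply_symm_apply, mul_eq_zero] at h1
    rcases h1 with h1 | h1
    · exfalso
      have h2 := g.pow (g.π.symm i)
      rw [Algebra.algebraMap_self, RingHom.id_apply] at h1
      rw [h1] at h2
      norm_num at h2
    · exact h1)

/-- the points of `X ^ m` -/
def XM (t : k) (m : ℕ) : Set (Fin m → ℙ k (Fin 5 → k)) :=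
  {p | ∀ b, MvPolynomial.eval (p b).rep (dwork t : MvPolynomial (Fin 5) k) = 0}

/-- the automorphisms `x ↦ (g_b x_(σ b))_b` of `X ^ m` -/
abbrev Aut (k : Type) [Field k] (m : ℕ) : Type := Equiv.Perm (Fin m) × (Fin m → Mon k)

/-- the image of a point of `X ^ m` -/
def actM {m : ℕ} (g : Aut k m) (p : Fin m → ℙ k (Fin 5 → k)) : Fin m → ℙ k (Fin 5 → k) :=
  fun b => actP (g.2 b) (p (g.1 b))

/-- the linear map `e_b ↦ s_b e_(σ b)` -/
def LS {m : ℕ} (σ : Equiv.Perm (Fin m)) (s : Fin m → ℚ) : (Fin m → ℚ) →ₗ[ℚ] (Fin m → ℚ) where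
  toFun f x := s (σ⁻¹ x) * f (σ⁻¹ x)
  map_add' f f' := by
    funext x
    simp [mul_add]
  map_smul' c f := by
    funext x
    simp only [Pi.smul_apply, smul_eq_mul, RingHom.id_apply]
    ring

/-- the pull-back of the holomorphic `3`-forms `ω_b` (on the factor with number `b`) of `X ^ m`: a
monomial automorphism with the permutation `π` multiplies `ω` with the sign of `π` -/
def LM {m : ℕ} (g : Aut k m) : (Fin m → ℚ) →ₗ[ℚ] (Fin m → ℚ) :=
  LS g.1 fun b => (((Equiv.Perm.sign (g.2 b).π : ℤˣ) : ℤ) : ℚ)

/-- The combination `γ` of automorphisms kills all holomorphic forms on `X ^ m`: they are the elements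
of the exterior algebra generated by the `ω_b`. -/
def KillsForms {m : ℕ} (γ : Aut k m →₀ ℚ) : Prop :=
  (γ.sum fun g c => c • (ExteriorAlgebra.map (LM g)).toLinearMap) = 0

end Pool.Agent.DWG
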