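import Pool.Agent.DWG.Swap
import Pool.Agent.DWG.Defs

/-!
# An alternating map
-/

set_option autoImplicit false

noncomputable section

namespace Pool.Agent.DWG

open Pool.Agent.ZCyc Pool.Agent.GT Pool.Agent.DWK
open Pool.Agent.VFP (Om tt)
open scoped Classical LinearAlgebra.Projectivization

variable {k : Type} [Field k] [IsAlgClosed k] [CharZero k] {t : k}

/-- Let `y_x`, `x < m`, be classes of degree zero. For a set `S` of indices with `r` elements
there is a linear map on the exterior algebra of `ℚ ^ m` which maps `c_1 ∧ ... ∧ c_r` to the exterior product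
of the classes `∑ x, c_j(x) y_x` at the `j`-th element of `S` (`S.orderEmbOfFin`), and of `oC t` at the
other places: for the multilinear map on the right side (compose `Ext` with linear maps,
`MultilinearMap.compLinearMap`, `domDomCongr`, or `MultilinearMap.mk'`) use
`Ext_swap`: if `c_i = c_j` then `2` times the value is zero, so it is alternating; then
`ExteriorAlgebra.liftAlternating`, `liftAlternating_apply_ιMulti`. -/
theorem exists_alt {m : ℕ} (y : Fin m → V t) (hy : ∀ x, y x ∈ V0 t) (S : Finset (Fin m)) {r : ℕ}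
    (hr : S.card = r) : ∃ T : ExteriorAlgebra ℚ (Fin m → ℚ) →ₗ[ℚ] CH {dwork t} (Fin m),
      ∀ c : Fin r → (Fin m → ℚ), T (ExteriorAlgebra.ιMulti ℚ r c) =
        Ext (dwork_hom t) m fun b =>
          if h : ∃ j : Fin r, S.orderEmbOfFin hr j = b then ∑ x, c h.choose x • y x else oC t := by
  obtain ⟨e, he⟩ : ∃ e : Fin r ↪o Fin m, e = S.orderEmbOfFin hr := ⟨_, rfl⟩
  obtain ⟨L, hL⟩ : ∃ L : (Fin m → ℚ) →ₗ[ℚ] V t, ∀ u, L u = ∑ x, u x • y x :=
    ⟨∑ x, (LinearMap.proj (R := ℚ) (φ := fun _ : Fin m => ℚ) x).smulRight (y x), fun u => by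
      rw [LinearMap.sum_apply]
      rfl⟩
  have hL0 : ∀ u, L u ∈ V0 t := fun u => by
    rw [hL]
    exact Submodule.sum_mem _ fun x _ => Submodule.smul_mem _ _ (hy x)
  obtain ⟨G, hGdef⟩ : ∃ G : (Fin r → (Fin m → ℚ)) → Fin m → V t, ∀ c b, G c b =
      if h : ∃ j : Fin r, S.orderEmbOfFin hr j = b then ∑ x, c h.choose x • y x else oC t :=
    ⟨_, fun _ _ => rfl⟩
  have hGe : ∀ c j, G c (e j) = L (c j) := by
    intro c j
    have h : ∃ j' : Fin r, S.orderEmbOfFin hr j' = e j := ⟨j, by rw [he]⟩
    have h1 : h.choose = j := by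
      have h2 : e h.choose = e j :=
        (congrArg (fun f : Fin r ↪o Fin m => f h.choose) he).trans h.choose_spec
      exact e.injective h2
    rw [hGdef, dif_pos h, h1, hL]
  have hGn : ∀ c b, (¬∃ j, e j = b) → G c b = oC t := by
    intro c b hb
    rw [he] at hb
    rw [hGdef, dif_neg hb]
  have hGu : ∀ (c : Fin r → (Fin m → ℚ)) (i : Fin r) (u : Fin m → ℚ),
      G (Function.update c i u) = Function.update (G c) (e i) (L u) := by
    intro c i u
    funext b
    by_cases h : ∃ j, e j = b
    · obtain ⟨j, rfl⟩ := h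
      rw [hGe]
      by_cases hij : j = i
      · subst hij
        rw [Function.update_self, Function.update_self]
      · rw [Function.update_of_ne hij, Function.update_of_ne (fun h => hij (e.injective h)), hGe]
    · rw [hGn _ _ h, Function.update_of_ne (fun h' => h ⟨i, h'.symm⟩), hGn _ _ h]
  have hA : ∃ A : (Fin m → ℚ) [⋀^Fin r]→ₗ[ℚ] CH {dwork t} (Fin m),
      ∀ c, A c = Ext (dwork_hom t) m (G c) := by
    let M : MultilinearMap ℚ (fun _ : Fin r => (Fin m → ℚ)) (CH {dwork t} (Fin m)) :=
      MultilinearMap.mk' (fun c => Ext (dwork_hom t) m (G c))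
        (fun c i u v => by
          rw [hGu, hGu, hGu, map_add, (Ext (dwork_hom t) m).map_update_add])
        (fun c i a u => by
          rw [hGu, hGu, map_smul, (Ext (dwork_hom t) m).map_update_smul])
    refine ⟨{ M with map_eq_zero_of_eq' := ?_ }, fun c => rfl⟩
    intro c i j hc hij
    change Ext (dwork_hom t) m (G c) = 0
    have h1 := Ext_swap (G c) (fun h => hij (e.injective h)) (i := e i) (j := e j)
      (by rw [hGe]; exact hL0 _) (by rw [hGe]; exact hL0 _)
    have h2 : G c ∘ Equiv.swap (e i) (e j) = G c := by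
      funext b
      rw [Function.comp_apply]
      by_cases hb : b = e i
      · rw [hb, Equiv.swap_apply_left, hGe, hGe, hc]
      · by_cases hb' : b = e j
        · rw [hb', Equiv.swap_apply_right, hGe, hGe, hc]
        · rw [Equiv.swap_apply_of_ne_of_ne hb hb']
    rw [h2, ← two_smul ℚ] at h1
    exact (smul_eq_zero.1 h1).resolve_left two_ne_zero
  obtain ⟨A, hA⟩ := hA
  refine ⟨ExteriorAlgebra.liftAlternating (R := ℚ) (M := Fin m → ℚ)
    (Function.update (fun _ => 0) r A), fun c => ?_⟩
  rw [ExteriorAlgebra.liftAlternating_apply_ιMulti, Function.update_self, hA]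
  congr 1
  funext b
  rw [hGdef]

end Pool.Agent.DWG
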