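import Pool.Agent.DWK.Defs
import Pool.Agent.TInc.EmbA
import Pool.Agent.TInc.EmbB
import Pool.Agent.VFP.Util

/-!
# Galois closures of function fields
-/

set_option autoImplicit false

noncomputable section

namespace Pool.Agent.DWG

open Pool.Agent.ZCyc Pool.Agent.GT Pool.Agent.DWK
open Pool.Agent.VFP (Om tt)
open scoped Classical LinearAlgebra.Projectivization

open Pool.Agent.Dess Pool.Agent.TInc

variable {k : Type} [Field k] [IsAlgClosed k] [CharZero k]

/-- Let `K` be the function field of a curve and `g` transcendental. There is an embedding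
`σ : K → Om k` over `k` with `σ g = tt k`: `K` is algebraic over `k(g)`, which is isomorphic to
`RatFunc k`, and `Om k` is algebraically closed (`IsAlgClosed.lift`; similar embeddings are constructed
in `TInc/EmbB.lean`, `TInc/EmbC.lean`). -/
theorem exists_emb {K : Type} [Field K] [Algebra k K] (hK : IsCurve k K) {g : K}
    (hg : Transcendental k g) : ∃ σ : K →ₐ[k] Om k, σ g = tt k := by
  have h1 := (card_emb hK hg (Pool.Agent.VFP.tt_transc (k := k))).2
  have hfd : FiniteDimensional (IntermediateField.adjoin k {g}) K := fin_adjoin hK hg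
  have h2 : 0 < {σ : K →ₐ[k] Om k | σ g = tt k}.ncard := by
    rw [h1]
    exact Module.finrank_pos
  obtain ⟨σ, hσ⟩ := (Set.ncard_pos (Set.finite_of_ncard_pos h2)).1 h2
  exact ⟨σ, hσ⟩

/-- an element of `k(g)` goes to a rational function -/
private theorem gal_mem {K : Type} [Field K] [Algebra k K] {g : K} {σ : K →ₐ[k] Om k}
    (hσ : σ g = tt k) (c : IntermediateField.adjoin k {g}) :
    ∃ q : RatFunc k, algebraMap (RatFunc k) (Om k) q = σ (c : K) := by
  have h1 : (IntermediateField.adjoin k {g}) ≤
      ((IsScalarTower.toAlgHom k (RatFunc k) (Om k)).fieldRange).comap σ := by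
    rw [IntermediateField.adjoin_le_iff]
    intro y hy
    rw [Set.mem_singleton_iff.1 hy]
    change σ g ∈ (IsScalarTower.toAlgHom k (RatFunc k) (Om k)).fieldRange
    rw [hσ]
    exact ⟨RatFunc.X, rfl⟩
  obtain ⟨q, hq⟩ := h1 c.2
  exact ⟨q, hq⟩

/-- The Galois closure. With `σ` as above let `F` be the normal closure over `RatFunc k` in `Om k` of
`RatFunc k (σ K)`, which is finite over `RatFunc k` because `K` is generated over `k(g)` by finitely
many elements; see the beginning of the proof of `ptX_ratEquiv` in `VGE/Rat.lean`. -/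
theorem exists_gal {K : Type} [Field K] [Algebra k K] (hK : IsCurve k K) {g : K}
    (hg : Transcendental k g) : ∃ F : IntermediateField (RatFunc k) (Om k),
      FiniteDimensional (RatFunc k) F ∧ IsGalois (RatFunc k) F ∧ ∃ j : K →ₐ[k] F,
        j g = algebraMap (RatFunc k) F RatFunc.X := by
  obtain ⟨σ, hσ⟩ := exists_emb hK hg
  have hfd0 : FiniteDimensional (IntermediateField.adjoin k {g}) K := fin_adjoin hK hg
  let b := Module.finBasis (IntermediateField.adjoin k {g}) K
  let T : Set (Om k) := Set.range fun i => σ (b i)
  let L1 : IntermediateField (RatFunc k) (Om k) := IntermediateField.adjoin (RatFunc k) T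
  have hfd : FiniteDimensional (RatFunc k) L1 := by
    have : Finite T := (Set.finite_range _).to_subtype
    exact IntermediateField.finiteDimensional_adjoin fun z _ =>
      Algebra.IsIntegral.isIntegral z
  have hmem : ∀ x : K, σ x ∈ L1 := by
    intro x
    rw [← b.sum_repr x, map_sum]
    refine sum_mem fun i _ => ?_
    rw [IntermediateField.smul_def, smul_eq_mul, map_mul]
    refine mul_mem ?_ (IntermediateField.subset_adjoin (RatFunc k) T ⟨i, rfl⟩)
    obtain ⟨q, hq⟩ := gal_mem hσ (b.repr x i)
    rw [← hq]
    exact L1.algebraMap_mem q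
  let F : IntermediateField (RatFunc k) (Om k) :=
    IntermediateField.normalClosure (RatFunc k) L1 (Om k)
  have hLF : L1 ≤ F := IntermediateField.le_normalClosure L1
  have h1 : Normal (RatFunc k) F := normalClosure.normal (RatFunc k) L1 (Om k)
  have h2 : FiniteDimensional (RatFunc k) F :=
    normalClosure.is_finiteDimensional (RatFunc k) L1 (Om k)
  have h3 : IsGalois (RatFunc k) F := {}
  refine ⟨F, h2, h3, ?_⟩
  let j0 : K →+* F := (σ : K →+* Om k).codRestrict F.toSubfield fun x => hLF (hmem x)
  refine ⟨{ j0 with commutes' := fun c => ?_ }, ?_⟩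
  · apply Subtype.ext
    exact σ.commutes c
  · apply Subtype.ext
    exact hσ

end Pool.Agent.DWG
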