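import Pool.Agent.DWK.Defs

/-!
# Products with fixed points
-/

set_option autoImplicit false

noncomputable section

namespace Pool.Agent.DWG

open Pool.Agent.ZCyc Pool.Agent.GT Pool.Agent.DWK
open Pool.Agent.VFP (Om tt)
open scoped Classical LinearAlgebra.Projectivization

variable {k : Type} [Field k] [IsAlgClosed k] [CharZero k] {m : ℕ}
  {X : Set (MvPolynomial (Fin (m + 1)) k)}

/-- the map of points -/
private def insPt {n : ℕ} (i j : Fin n) (p : Fin n → Pt X k) (x : Fin 2 → Pt X k) :
    Fin n → Pt X k := Function.update (Function.update p i (x 0)) j (x 1)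

omit [IsAlgClosed k] [CharZero k] in
private theorem ins_rat (hX : Hom X) {n : ℕ} {i j : Fin n} (hij : i ≠ j) (p : Fin n → Pt X k) :
    Rat X (Fin 2) ≤ Submodule.comap (Finsupp.lmapDomain ℚ ℚ (insPt i j p)) (Rat X (Fin n)) := by
  refine Submodule.span_le.2 ?_
  rintro _ ⟨K, i1, i2, i3, xK, y, f, D, hf, hD, hval, rfl⟩
  change Finsupp.lmapDomain ℚ ℚ (insPt i j p) _ ∈ Rat X (Fin n)
  rw [map_finsuppSum]
  refine Submodule.subset_span ⟨K, i1, i2, i3, Function.update (Function.update
    (fun l => (p l).map (Algebra.ofId k K) hX) i (xK 0)) j (xK 1),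
    fun v => insPt i j p (y v), f, D, hf, hD, fun v l => ?_, ?_⟩
  · unfold insPt
    beta_reduce
    by_cases hj : l = j
    · subst hj
      rw [Function.update_self, Function.update_self]
      exact hval v 1
    · rw [Function.update_of_ne hj, Function.update_of_ne hj]
      by_cases hi : l = i
      · subst hi
        rw [Function.update_self, Function.update_self]
        exact hval v 0
      · rw [Function.update_of_ne hi, Function.update_of_ne hi]
        exact isVal_const
  · refine Finsupp.sum_congr fun v _ => ?_
    rw [Finsupp.lmapDomain_apply, Finsupp.mapDomain_single]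

omit [IsAlgClosed k] [CharZero k] in
private theorem ins_ext {n : ℕ} {i j : Fin n} (hij : i ≠ j) (p : Fin n → Pt X k)
    (a b : Pt X k →₀ ℚ) : Finsupp.mapDomain (insPt i j p) (ext ![a, b]) = ext
      (Function.update (Function.update (fun l => Finsupp.single (p l) 1) i a) j b) := by
  obtain ⟨F, hF⟩ := ext_linear (Pt X k) 2
  obtain ⟨G, hG⟩ := ext_linear (Pt X k) n
  let c : Fin n → (Pt X k →₀ ℚ) := fun l => Finsupp.single (p l) 1
  have e0 : ∀ a b : Pt X k →₀ ℚ, Function.update ![0, b] 0 a = ![a, b] := by
    intro a b
    funext t
    fin_cases t <;> simp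
  have e1 : ∀ a b : Pt X k →₀ ℚ, Function.update ![a, 0] 1 b = ![a, b] := by
    intro a b
    funext t
    fin_cases t <;> simp
  have hs : ∀ (x : Pt X k) (r : ℚ) (y : Pt X k) (s : ℚ),
      Finsupp.mapDomain (insPt i j p) (F ![Finsupp.single x r, Finsupp.single y s]) =
        G (Function.update (Function.update c i (Finsupp.single x r)) j
          (Finsupp.single y s)) := by
    intro x r y s
    have h1 : (![Finsupp.single x r, Finsupp.single y s] : Fin 2 → (Pt X k →₀ ℚ)) =
        fun t => Finsupp.single (![x, y] t) (![r, s] t) := by
      funext t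
      fin_cases t <;> rfl
    have h2 : Function.update (Function.update c i (Finsupp.single x r)) j
        (Finsupp.single y s) = fun l =>
          Finsupp.single (Function.update (Function.update p i x) j y l)
            (Function.update (Function.update (fun _ => (1 : ℚ)) i r) j s l) := by
      funext l
      by_cases hj : l = j
      · subst hj
        simp
      · rw [Function.update_of_ne hj, Function.update_of_ne hj, Function.update_of_ne hj]
        by_cases hi : l = i
        · subst hi
          simp
        · rw [Function.update_of_ne hi, Function.update_of_ne hi, Function.update_of_ne hi]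
    rw [h1, h2, hF, hG, ext_single, ext_single, Finsupp.mapDomain_single,
      Finset.prod_update_of_mem (Finset.mem_univ j), Finset.prod_update_of_mem (by simp [hij])]
    have h3 : insPt i j p ![x, y] = Function.update (Function.update p i x) j y := rfl
    rw [h3]
    simp [mul_comm]
  have hb : ∀ (x : Pt X k) (r : ℚ) (b : Pt X k →₀ ℚ),
      Finsupp.mapDomain (insPt i j p) (F ![Finsupp.single x r, b]) =
        G (Function.update (Function.update c i (Finsupp.single x r)) j b) := by
    intro x r b
    have h1 : (Finsupp.lmapDomain ℚ ℚ (insPt i j p)).comp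
        (F.toLinearMap ![Finsupp.single x r, 0] 1) =
          G.toLinearMap (Function.update c i (Finsupp.single x r)) j := by
      refine Finsupp.lhom_ext fun y s => ?_
      change Finsupp.mapDomain (insPt i j p)
        (F (Function.update ![Finsupp.single x r, 0] 1 (Finsupp.single y s))) = _
      rw [e1]
      exact hs x r y s
    have h2 := LinearMap.congr_fun h1 b
    change Finsupp.mapDomain (insPt i j p)
      (F (Function.update ![Finsupp.single x r, 0] 1 b)) = _ at h2
    rw [e1] at h2
    exact h2
  have h1 : (Finsupp.lmapDomain ℚ ℚ (insPt i j p)).comp (F.toLinearMap ![0, b] 0) =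
      G.toLinearMap (Function.update c j b) i := by
    refine Finsupp.lhom_ext fun x r => ?_
    change Finsupp.mapDomain (insPt i j p)
      (F (Function.update ![0, b] 0 (Finsupp.single x r))) =
        G (Function.update (Function.update c j b) i (Finsupp.single x r))
    rw [e0, Function.update_comm (Ne.symm hij)]
    exact hb x r b
  have h2 := LinearMap.congr_fun h1 a
  change Finsupp.mapDomain (insPt i j p) (F (Function.update ![0, b] 0 a)) =
    G (Function.update (Function.update c j b) i a) at h2
  rw [e0, Function.update_comm (Ne.symm hij), hF, hG] at h2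
  exact h2

omit [IsAlgClosed k] [CharZero k] in
private theorem ins_surj : Function.Surjective (cl1 X) := by
  intro c
  obtain ⟨w, rfl⟩ := Submodule.Quotient.mk_surjective _ c
  refine ⟨Finsupp.mapDomain (fun x => x ()) w, ?_⟩
  change Submodule.Quotient.mk (Finsupp.mapDomain (fun x _ => x)
    (Finsupp.mapDomain (fun x => x ()) w)) = _
  rw [← Finsupp.mapDomain_comp]
  have h3 : ((fun (x : Pt X k) (_ : Unit) => x) ∘ fun x : Unit → Pt X k => x ()) = id := rfl
  rw [h3, Finsupp.mapDomain_id]

/-- The map of points `x ↦ (x 0 at i, x 1 at j, p l at the other places l)` is compatible with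
rational equivalence: for a generator of `Rat X (Fin 2)` take the same curve, and the constant
points
`(p l).map` at the places `l ≠ i, j` (`isVal_const`); compare `Ext_base` in `GT/Ext.lean`. The
formula holds for points, and both sides are bilinear (`ext_linear`, `ext_single`). -/
theorem exists_ins (hX : Hom X) {n : ℕ} {i j : Fin n} (hij : i ≠ j) (p : Fin n → Pt X k) :
    ∃ T : CH X (Fin 2) →ₗ[ℚ] CH X (Fin n), ∀ a b : Pt X k →₀ ℚ,
      T (Submodule.Quotient.mk (ext ![a, b])) = Submodule.Quotient.mk (ext
        (Function.update (Function.update (fun l => Finsupp.single (p l) 1) i a) j b)) := by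
  refine ⟨(Rat X (Fin 2)).mapQ (Rat X (Fin n)) _ (ins_rat hX hij p), fun a b => ?_⟩
  rw [← ins_ext hij p a b]
  rfl

/-- the same for classes: `exists_ins`, `Ext_cl` (the map `cl1 X` is surjective) -/
theorem exists_insE (hX : Hom X) {n : ℕ} {i j : Fin n} (hij : i ≠ j) (p : Fin n → Pt X k) :
    ∃ T : CH X (Fin 2) →ₗ[ℚ] CH X (Fin n), ∀ a b : CH X Unit,
      T (Ext hX 2 ![a, b]) = Ext hX n
        (Function.update (Function.update (fun l => cl1 X (Finsupp.single (p l) 1)) i a) j b) := by
  obtain ⟨T, hT⟩ := exists_ins hX hij p
  refine ⟨T, fun a b => ?_⟩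
  obtain ⟨a, rfl⟩ := ins_surj a
  obtain ⟨b, rfl⟩ := ins_surj b
  have h1 : (![cl1 X a, cl1 X b] : Fin 2 → CH X Unit) = fun t => cl1 X (![a, b] t) := by
    funext t
    fin_cases t <;> rfl
  have h2 : (Function.update (Function.update (fun l => cl1 X (Finsupp.single (p l) 1)) i
      (cl1 X a)) j (cl1 X b)) = fun l => cl1 X
        (Function.update (Function.update (fun l => Finsupp.single (p l) 1) i a) j b l) := by
    funext l
    by_cases hj : l = j
    · subst hj
      simp
    · rw [Function.update_of_ne hj, Function.update_of_ne hj]
      by_cases hi : l = i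
      · subst hi
        simp
      · rw [Function.update_of_ne hi, Function.update_of_ne hi]
  rw [h1, h2, Ext_cl, Ext_cl]
  exact hT a b

end Pool.Agent.DWG
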