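import Pool.Agent.DWG.Ins
import Pool.Agent.DWK.Final

/-!
# Antisymmetry of the exterior products
-/

set_option autoImplicit false

noncomputable section

namespace Pool.Agent.DWG

open Pool.Agent.ZCyc Pool.Agent.GT Pool.Agent.DWK
open Pool.Agent.VFP (Om tt)
open scoped Classical LinearAlgebra.Projectivization

variable {k : Type} [Field k] [IsAlgClosed k] [CharZero k] {t : k}

/-- the classes of degree zero -/
def V0 (t : k) : Submodule ℚ (V t) :=
  Submodule.span ℚ {x | ∃ y : Fin 5 → k, On t y ∧ x = cls t y - oC t}

theorem sub_mem {y : Fin 5 → k} (hy : On t y) : cls t y - oC t ∈ V0 t :=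
  Submodule.subset_span ⟨y, hy, rfl⟩

private theorem Swap_V0_le : V0 t ≤
    Submodule.span ℚ {x | ∃ u : Fin 5 → k, Tor t u ∧ x = nu t u} := by
  refine Submodule.span_le.2 ?_
  rintro _ ⟨y, hy, rfl⟩
  rcases cls_cases hy with h | ⟨u, hu, h⟩
  · rw [h]
    exact Submodule.zero_mem _
  · exact Submodule.subset_span ⟨u, hu, h⟩

/-- `Phi t` is linear in the first variable -/
private def Swap_lin (y : V t) : V t →ₗ[ℚ] CH {dwork t} (Fin 2) where
  toFun x := Phi t x y
  map_add' x x' := Phi_add x x' y
  map_smul' a x := Phi_smul a x y

private theorem Swap_span {S : Set (V t)} {x y : V t} (hx : x ∈ Submodule.span ℚ S)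
    (h : ∀ z ∈ S, Phi t z y = 0) : Phi t x y = 0 := by
  have hle : Submodule.span ℚ S ≤ LinearMap.ker (Swap_lin y) :=
    Submodule.span_le.2 fun z hz => h z hz
  exact hle hx

/-- `cls_cases`, `Phi_nu_all`, bilinearity -/
theorem Phi_V0 {x y : V t} (hx : x ∈ V0 t) (hy : y ∈ V0 t) : Phi t x y = 0 := by
  refine Swap_span (Swap_V0_le hx) ?_
  rintro _ ⟨u, hu, rfl⟩
  rw [Phi_symm]
  refine Swap_span (Swap_V0_le hy) ?_
  rintro _ ⟨u', hu', rfl⟩
  exact Phi_nu_all hu' hu

private theorem Swap_surj : Function.Surjective (cl1 {dwork t}) := by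
  intro c
  obtain ⟨w, rfl⟩ := Submodule.Quotient.mk_surjective _ c
  refine ⟨Finsupp.mapDomain (fun x => x ()) w, ?_⟩
  change Submodule.Quotient.mk (Finsupp.mapDomain (fun x _ => x)
    (Finsupp.mapDomain (fun x => x ()) w)) = _
  rw [← Finsupp.mapDomain_comp]
  have h3 : ((fun (x : Pt {dwork t} k) (_ : Unit) => x) ∘
      fun x : Unit → Pt {dwork t} k => x ()) = id := rfl
  rw [h3, Finsupp.mapDomain_id]

/-- the other classes are classes of points -/
private theorem Swap_base {m : ℕ} (z : Fin m → V t) {i j : Fin m} (hij : i ≠ j)
    (hi : z i ∈ V0 t) (hj : z j ∈ V0 t) (p : Fin m → Pt {dwork t} k)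
    (hp : ∀ l, l ≠ i → l ≠ j → z l = cl1 {dwork t} (Finsupp.single (p l) 1)) :
    Ext (dwork_hom t) m z + Ext (dwork_hom t) m (z ∘ Equiv.swap i j) = 0 := by
  obtain ⟨T, hT⟩ := exists_insE (dwork_hom t) hij p
  have h1 : z = Function.update (Function.update
      (fun l => cl1 {dwork t} (Finsupp.single (p l) 1)) i (z i)) j (z j) := by
    funext l
    by_cases h : l = j
    · subst h
      rw [Function.update_self]
    · rw [Function.update_of_ne h]
      by_cases h' : l = i
      · subst h'
        rw [Function.update_self]
      · rw [Function.update_of_ne h']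
        exact hp l h' h
  have h2 : z ∘ Equiv.swap i j = Function.update (Function.update
      (fun l => cl1 {dwork t} (Finsupp.single (p l) 1)) i (z j)) j (z i) := by
    funext l
    by_cases h : l = j
    · subst h
      rw [Function.update_self, Function.comp_apply, Equiv.swap_apply_right]
    · rw [Function.update_of_ne h]
      by_cases h' : l = i
      · subst h'
        rw [Function.update_self, Function.comp_apply, Equiv.swap_apply_left]
      · rw [Function.update_of_ne h', Function.comp_apply, Equiv.swap_apply_of_ne_of_ne h' h]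
        exact hp l h' h
  have h3 : Ext (dwork_hom t) m z = T (Ext (dwork_hom t) 2 ![z i, z j]) := by
    rw [hT]
    exact congrArg _ h1
  have h4 : Ext (dwork_hom t) m (z ∘ Equiv.swap i j) =
      T (Ext (dwork_hom t) 2 ![z j, z i]) := by
    rw [hT]
    exact congrArg _ h2
  rw [h3, h4, ← map_add]
  have h5 : Ext (dwork_hom t) 2 ![z i, z j] + Ext (dwork_hom t) 2 ![z j, z i] = 0 :=
    Phi_V0 hi hj
  rw [h5, map_zero]

private theorem Swap_upd {m : ℕ} (z : Fin m → V t) {i j a : Fin m} (hai : a ≠ i)
    (haj : a ≠ j) (u : V t) : Function.update z a u ∘ Equiv.swap i j =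
      Function.update (z ∘ Equiv.swap i j) a u := by
  funext l
  by_cases h : l = a
  · subst h
    rw [Function.update_self, Function.comp_apply, Equiv.swap_apply_of_ne_of_ne hai haj,
      Function.update_self]
  · rw [Function.update_of_ne h, Function.comp_apply, Function.comp_apply,
      Function.update_of_ne]
    intro h'
    apply h
    rw [← Equiv.swap_apply_self i j l, h', Equiv.swap_apply_of_ne_of_ne hai haj]

private theorem Swap_step {m : ℕ} {i j : Fin m} (hij : i ≠ j) (T : Finset (Fin m)) :
    ∀ z : Fin m → V t, z i ∈ V0 t → z j ∈ V0 t →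
      (∀ l ∉ T, l ≠ i → l ≠ j → ∃ x, z l = cl1 {dwork t} (Finsupp.single x 1)) →
      Ext (dwork_hom t) m z + Ext (dwork_hom t) m (z ∘ Equiv.swap i j) = 0 := by
  induction T using Finset.induction_on with
  | empty =>
    intro z hi hj hz
    by_cases hne : Nonempty (Pt {dwork t} k)
    · obtain ⟨p⟩ := hne
      have h1 : ∀ l, ∃ x, l ≠ i → l ≠ j → z l = cl1 {dwork t} (Finsupp.single x 1) := by
        intro l
        by_cases h : l = i
        · exact ⟨p, fun h' => absurd h h'⟩
        · by_cases h' : l = j
          · exact ⟨p, fun _ h'' => absurd h' h''⟩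
          · obtain ⟨x, hx⟩ := hz l (Finset.notMem_empty l) h h'
            exact ⟨x, fun _ _ => hx⟩
      choose x hx using h1
      exact Swap_base z hij hi hj x hx
    · have h0 : ∀ c : V t, c = 0 := by
        intro c
        obtain ⟨w, rfl⟩ := Swap_surj c
        have h3 : w = 0 := by
          ext q
          exact absurd ⟨q⟩ hne
        rw [h3, map_zero]
      rw [(Ext (dwork_hom t) m).map_coord_zero i (h0 _),
        (Ext (dwork_hom t) m).map_coord_zero i (h0 _), add_zero]
  | insert a T _ ih =>
    intro z hi hj hz
    by_cases haij : a = i ∨ a = j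
    · refine ih z hi hj fun l hl hli hlj => hz l (fun h => ?_) hli hlj
      rcases Finset.mem_insert.1 h with h | h
      · rcases haij with h' | h'
        · exact hli (h.trans h')
        · exact hlj (h.trans h')
      · exact hl h
    · rw [not_or] at haij
      obtain ⟨hai, haj⟩ := haij
      have key : ∀ u : Pt {dwork t} k →₀ ℚ,
          Ext (dwork_hom t) m (Function.update z a (cl1 {dwork t} u)) +
            Ext (dwork_hom t) m (Function.update (z ∘ Equiv.swap i j) a
              (cl1 {dwork t} u)) = 0 := by
        intro u
        induction u using Finsupp.induction_linear with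
        | zero =>
          rw [map_zero, (Ext (dwork_hom t) m).map_update_zero,
            (Ext (dwork_hom t) m).map_update_zero, add_zero]
        | add u u' hu hu' =>
          rw [map_add, (Ext (dwork_hom t) m).map_update_add,
            (Ext (dwork_hom t) m).map_update_add, add_add_add_comm, hu, hu', add_zero]
        | single p c =>
          have h1 : Finsupp.single p c = c • Finsupp.single p (1 : ℚ) := by simp
          rw [h1, map_smul, (Ext (dwork_hom t) m).map_update_smul,
            (Ext (dwork_hom t) m).map_update_smul, ← smul_add, ← Swap_upd z hai haj,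
            ih _ ?_ ?_ ?_, smul_zero]
          · rw [Function.update_of_ne (Ne.symm hai)]
            exact hi
          · rw [Function.update_of_ne (Ne.symm haj)]
            exact hj
          · intro l hl hli hlj
            by_cases hla : l = a
            · subst hla
              exact ⟨p, by rw [Function.update_self]⟩
            · rw [Function.update_of_ne hla]
              exact hz l (fun h => (Finset.mem_insert.1 h).elim hla hl) hli hlj
      obtain ⟨u, hu⟩ := Swap_surj (z a)
      have h2 := key u
      rw [hu, ← Swap_upd z hai haj, Function.update_eq_self] at h2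
      exact h2

/-- If the other classes are classes of points then this is `Phi_V0` and `exists_insE` (apply `T` to
`Phi t (z i) (z j) = 0`). In general both sides are multilinear in the other classes, and `V t` is
spanned by the classes of points; compare `Ext_step` in `GT/Ext.lean`. -/
theorem Ext_swap {m : ℕ} (z : Fin m → V t) {i j : Fin m} (hij : i ≠ j) (hi : z i ∈ V0 t)
    (hj : z j ∈ V0 t) : Ext (dwork_hom t) m z + Ext (dwork_hom t) m (z ∘ Equiv.swap i j) = 0 :=
  Swap_step hij Finset.univ z hi hj fun l hl => absurd (Finset.mem_univ l) hl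

end Pool.Agent.DWG
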